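import Pool.Agent.HHC.Stmts

/-!
# Squad HHC, module ARI: choice of `u / v`
-/

set_option autoImplicit false

namespace Pool.Agent.HHC

open MvPolynomial Pool.Agent.Lib22a066

universe u

theorem ari_proof : Stmt_ARI := by
  intro n t r D hn ht hr hnD hyp
  obtain ⟨m, rfl⟩ : ∃ m, n = m + 2 := ⟨n - 2, by omega⟩
  obtain ⟨t1, rfl⟩ : ∃ t1, t = t1 + 1 := ⟨t - 1, by omega⟩
  obtain ⟨s, hs⟩ : ∃ s, t1 + 1 = r + s := ⟨t1 + 1 - r, by omega⟩
  obtain ⟨F, rfl⟩ : ∃ F, D = F + (m + 2) := ⟨D - (m + 2), by omega⟩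
  have hs1 : 1 ≤ s := by omega
  have e1 : t1 + 1 - r = s := by omega
  have e2 : t1 + 1 - 1 = t1 := by omega
  have e3 : F + (m + 2) + 1 - (m + 2) = F + 1 := by omega
  rw [e1] at hyp ⊢
  rw [e2, e3]
  have ht1 : 1 ≤ t1 := by omega
  have hyp' : t1 ≤ (m + 2) * s := by omega
  set K : ℕ := (m + 1) * t1 + m + 2 with hK
  have hK1 : r * t1 ≤ s * K := by
    have h1 : s * K + s * t1 = (m + 2) * s * (t1 + 1) := by rw [hK]; ring
    have h2 : t1 * (t1 + 1) ≤ (m + 2) * s * (t1 + 1) := Nat.mul_le_mul_right _ hyp'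
    have h3 : t1 * (t1 + 1) = r * t1 + s * t1 := by rw [hs]; ring
    omega
  have hKpos : 0 < s * K := by positivity
  set Y : ℕ := K * (F + (m + 2)) + (m + 2) * r with hY
  have key : r * t1 * (F + 1) < s * Y := by
    calc r * t1 * (F + 1) ≤ s * K * (F + 1) := Nat.mul_le_mul_right _ hK1
      _ < s * K * (F + (m + 2)) := Nat.mul_lt_mul_of_pos_left (by omega) hKpos
      _ ≤ s * Y := by rw [hY]; nlinarith
  set v : ℕ := Y + (F + 1) with hv
  set w : ℕ := (m + 2) * r * t1 + s * (m + 2) with hw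
  have hwv : w ≤ t1 * v := by
    have h1 : s * (m + 2) ≤ t1 * (K * (m + 2)) := by
      have h4 : s ≤ t1 * K := by
        have : s ≤ t1 + 1 := by omega
        have h5 : t1 + 1 ≤ K := by rw [hK]; nlinarith
        nlinarith
      calc s * (m + 2) ≤ t1 * K * (m + 2) := Nat.mul_le_mul_right _ h4
        _ = t1 * (K * (m + 2)) := by ring
    have h2 : t1 * v = t1 * (K * (m + 2)) + (m + 2) * r * t1 + t1 * (K * F) + t1 * (F + 1) := by
      rw [hv, hY]; ring
    rw [hw, h2]
    omega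
  refine ⟨w, v, by omega, hwv, ?_, ?_⟩
  · have h1 : w * (F + 1) = (m + 2) * (r * t1 * (F + 1)) + s * (m + 2) * (F + 1) := by
      rw [hw]; ring
    have h2 : s * (m + 2) * v = (m + 2) * (s * Y) + s * (m + 2) * (F + 1) := by
      rw [hv]; ring
    rw [h1, h2]
    have h3 : (m + 2) * (r * t1 * (F + 1)) < (m + 2) * (s * Y) :=
      Nat.mul_lt_mul_of_pos_left key (by omega)
    omega
  · obtain ⟨a, ha⟩ : ∃ a, a = t1 * v - w := ⟨_, rfl⟩
    obtain ⟨b, hb⟩ : ∃ b, b = (t1 + 1) * (m + 2) * v - w := ⟨_, rfl⟩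
    have ha' : a + w = t1 * v := by omega
    have hb' : b + w = (t1 + 1) * (m + 2) * v := by
      have : t1 * v ≤ (t1 + 1) * (m + 2) * v := by
        apply Nat.mul_le_mul_right
        nlinarith
      omega
    rw [← ha, ← hb]
    have haz : (a : ℤ) = t1 * v - w := by
      have : (a : ℤ) + w = t1 * v := by exact_mod_cast ha'
      linarith
    have hbz : (b : ℤ) = (t1 + 1) * (m + 2) * v - w := by
      have : (b : ℤ) + w = (t1 + 1) * (m + 2) * v := by exact_mod_cast hb'
      linarith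
    have hsz : (t1 : ℤ) + 1 = r + s := by exact_mod_cast hs
    have keyz : (r : ℤ) * t1 * (F + 1) < s * Y := by exact_mod_cast key
    have hKz : (K : ℤ) = (m + 1) * t1 + m + 2 := by rw [hK]; push_cast; ring
    have hYz : (Y : ℤ) = K * (F + (m + 2)) + (m + 2) * r := by rw [hY]; push_cast; ring
    have hvz : (v : ℤ) = Y + (F + 1) := by rw [hv]; push_cast; ring
    have hwz : (w : ℤ) = (m + 2) * r * t1 + s * (m + 2) := by rw [hw]; push_cast; ring
    have goal : ((m : ℤ) + 2) * ((t1 + 1) * (F + (m + 2)) + r) * a <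
        t1 * b * (F + (m + 2)) := by
      rw [haz, hbz]
      have h1 : (t1 : ℤ) * ((t1 + 1) * (m + 2) * v - w) * (F + (m + 2)) -
          ((m : ℤ) + 2) * ((t1 + 1) * (F + (m + 2)) + r) * (t1 * v - w) =
          w * Y - (m + 2) * r * t1 * v := by
        rw [hYz, hKz]; ring
      have h2 : (w : ℤ) * Y - (m + 2) * r * t1 * v = (m + 2) * (s * Y - r * t1 * (F + 1)) := by
        rw [hwz, hvz]; ring
      have h3 : 0 < ((m : ℤ) + 2) * (s * Y - r * t1 * (F + 1)) := by
        apply mul_pos (by positivity)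
        linarith
      linarith
    exact_mod_cast goal

end Pool.Agent.HHC
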