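import Pool.Agent.HHC.Stmts

set_option autoImplicit false

namespace Pool.Agent.HHC

theorem bin_proof : Stmt_BIN := by
  intro p hp N s
  induction s with
  | zero =>
    intro _ h
    rw [Nat.choose_zero_right] at h
    exact hp.one_lt.ne' (Nat.dvd_one.mp h)
  | succ s ih =>
    intro hs h
    have h1 : p ^ N - 1 + 1 = p ^ N := Nat.sub_add_cancel (Nat.one_le_pow _ _ hp.pos)
    have h2 : p ∣ (p ^ N).choose (s + 1) := by
      rw [hp.dvd_choose_pow_iff]
      constructor
      · omega
      · omega
    rw [← h1, Nat.choose_succ_succ] at h2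
    exact ih (by omega) ((Nat.dvd_add_left h).mp h2)

end Pool.Agent.HHC
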