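import Pool.Agent.Lib_MP_22a066_ag.Assemble

/-!
# Squad HHC (MP_22a066_ag): definitions

Notation of `Pool.Agent.Lib22a066`: `pid c l` is the ideal of the point with coordinates `c`,
normalised at `l`; `low J D` the ideal generated by the forms of degree `< D` of `J`;
`T p e β G` the Frobenius coordinates of `G` (`G = ∑ x^β (T p e β G)^(p^e)`, `β ∈ Box σ (p^e)`).
-/

set_option autoImplicit false

namespace Pool.Agent.HHC

open MvPolynomial Pool.Agent.Lib22a066

universe u

variable {σ : Type} [DecidableEq σ] {k : Type u} [CommRing k] {s : Type}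

/-- Weighted symbolic ideal of the points with index in `S`. -/
noncomputable def wsymb (S : Finset s) (c : s → σ → k) (l : s → σ) (m : s → ℕ) :
    Ideal (MvPolynomial σ k) :=
  ⨅ i ∈ S, pid (c i) (l i) ^ (m i)

/-- Order at least `N * (m i + n - 1)` at every point with index in `S`. -/
def Van (S : Finset s) (c : s → σ → k) (l : s → σ) (m : s → ℕ) (n N : ℕ)
    (G : MvPolynomial σ k) : Prop :=
  ∀ i ∈ S, G ∈ pid (c i) (l i) ^ (N * (m i + n - 1))

/-- `G` is a form of degree `g < N * (D + 1)`, of order at least `N * (m i + n - 1)` at every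
point with index in `S`. -/
def XN (S : Finset s) (c : s → σ → k) (l : s → σ) (m : s → ℕ) (n D N g : ℕ)
    (G : MvPolynomial σ k) : Prop :=
  Van S c l m n N G ∧ G.IsHomogeneous g ∧ g < N * (D + 1)

end Pool.Agent.HHC

namespace Pool.Agent.HHC

open MvPolynomial Pool.Agent.Lib22a066

universe u

section

variable {σ : Type} [Fintype σ] [DecidableEq σ] {k : Type u} [Field k]

/-- The operator `Θ`: `Th p e lam G = ∑_β lam(T_β G)^(p^e) x^β`. -/
noncomputable def Th (p : ℕ) [Fact p.Prime] [CharP k p] [PerfectRing k p] (e : ℕ)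
    (lam : MvPolynomial σ k →ₗ[k] k) (G : MvPolynomial σ k) : MvPolynomial σ k :=
  ∑ β ∈ Box σ (p ^ e), monomial β ((lam (T p e β G)) ^ (p ^ e))

end

end Pool.Agent.HHC
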