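import Pool.Agent.HHC.Stmts

set_option autoImplicit false

namespace Pool.Agent.HHC

open MvPolynomial Pool.Agent.Lib22a066

universe u

namespace FIN_

lemma wsymb_univ {σ : Type} [DecidableEq σ] {k : Type u} [CommRing k] {s : ℕ}
    (c : Fin s → σ → k) (l : Fin s → σ) (m : ℕ) :
    wsymb Finset.univ c l (fun _ => m) = symb c l m := by
  unfold wsymb symb
  refine iInf_congr fun i => ?_
  simp

/-- Transfer to a perfect field. -/
lemma low_of_perfect {σ : Type} [Fintype σ] [DecidableEq σ] (k : Type u) [Field k] (p : ℕ)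
    [hp : Fact p.Prime] [CharP k p] {s : ℕ} (hs : 0 < s) (c : Fin s → σ → k) (l : Fin s → σ)
    (m n t d D : ℕ)
    (hK : ∀ (K : Type u) [Field K] [CharP K p] [PerfectRing K p] (c : Fin s → σ → K)
      (F : MvPolynomial σ K), F.IsHomogeneous d →
      Van Finset.univ c l (fun _ => m) n t F →
      F ∈ low (wsymb Finset.univ c l (fun _ => m)) D ^ t)
    {F : MvPolynomial σ k} (hF : F.IsHomogeneous d)
    (hFmem : F ∈ symb c l (t * (m + n - 1))) :
    F ∈ low (symb c l m) D ^ t := by
  classical
  have : Nonempty (Fin s) := ⟨⟨0, hs⟩⟩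
  by_contra hnot
  obtain ⟨S, hS, hS2⟩ := transfer c l m D (t * (m + n - 1)) t d hF hFmem hnot
  have : CharP (AlgebraicClosure k) p :=
    charP_of_injective_algebraMap (algebraMap k (AlgebraicClosure k)).injective p
  have hperf : PerfectRing (AlgebraicClosure k) p :=
    PerfectRing.ofSurjective _ p fun _ => IsAlgClosed.exists_pow_nat_eq _ hp.out.pos
  obtain ⟨c', F', hF', hF'1, hF'2⟩ := hS2 ⊤ (by intro x _; exact Subring.mem_top x)
    (AlgebraicClosure k) ((algebraMap k (AlgebraicClosure k)).comp (Subring.subtype ⊤))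
  apply hF'2
  have h := hK (AlgebraicClosure k) c' F' hF' (by
    intro i _
    exact mem_symb.mp hF'1 i)
  rwa [wsymb_univ] at h

end FIN_

theorem fin_proof (hIND : Stmt_IND.{u}) (hWEA : Stmt_WEA.{u}) : Stmt_FIN.{u} := by
  intro k _ n hn s hs c l m t hm ht
  have hne : Nonempty (Fin s) := ⟨⟨0, hs⟩⟩
  have hcard : Fintype.card (Fin (n + 1)) = n + 1 := Fintype.card_fin _
  obtain ⟨p, hp⟩ := CharP.exists k
  rcases CharP.char_is_prime_or_zero k p with hpp | hp0
  · -- positive characteristic
    have hpf : Fact p.Prime := ⟨hpp⟩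
    intro F hF
    rw [← sum_homogeneousComponent F]
    refine Ideal.sum_mem _ fun d _ => ?_
    have hFd := homogeneousComponent_isHomogeneous d F
    have hFm := homComp_mem_symb hF d
    generalize homogeneousComponent d F = G at hFd hFm
    by_cases hc : t ≤ n * (t - d % t) + 1
    · have h1 : G ∈ low (symb c l m) (d / t) ^ t := by
        refine FIN_.low_of_perfect k p hs c l m n t d (d / t) ?_ hFd hFm
        intro K _ _ _ c' F' hF' hV
        exact hIND _ K p _ Finset.univ c' l (fun _ => m) n t d F' hcard hn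
          ⟨⟨0, hs⟩, Finset.mem_univ _⟩ (fun _ _ => hm) ht hF' hV hc
      have h2 := mem_of_mem_low_pow ht (Nat.mul_div_le d t) hFd h1
      exact Ideal.mul_mono_left (Ideal.pow_le_pow_right (Nat.sub_le _ _)) h2
    · push Not at hc
      have h1 : G ∈ low (symb c l m) (d / t + 1) ^ t := by
        refine FIN_.low_of_perfect k p hs c l m n t d (d / t + 1) ?_ hFd hFm
        intro K _ _ _ c' F' hF' hV
        exact hWEA _ K p _ Finset.univ c' l (fun _ => m) n t d F' hcard hn
          (fun _ _ => hm) ht hF' hV
      have h2 := homComp_mem_of_mem_low_pow t G h1 d (d % t) (by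
        rw [Nat.add_sub_cancel]
        exact (Nat.div_add_mod d t).le)
      rw [homogeneousComponent_eq_self hFd] at h2
      refine Ideal.mul_mono_left (Ideal.pow_le_pow_right ?_) h2
      have h3 : (t - d % t) ≤ (t - 2) / n := by
        rw [Nat.le_div_iff_mul_le (by omega), mul_comm]
        omega
      have h4 : d % t < t := Nat.mod_lt _ ht
      omega
  · -- characteristic zero
    subst hp0
    have : CharZero k := CharP.charP_to_charZero k
    refine (contain_char0 k c l n m t hcard hn hm ht).trans ?_
    exact Ideal.mul_mono_left (Ideal.pow_le_pow_right (Nat.sub_le _ _))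

end Pool.Agent.HHC
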