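import Pool.Agent.HHC.Stmts

/-!
# Squad HHC (MP_22a066_ag), module FIX: the fixed part `B`
-/

set_option autoImplicit false

namespace Pool.Agent.HHC

open MvPolynomial Pool.Agent.Lib22a066

universe u

namespace FIX_

/-- from divisibility of large powers to the sharp statement -/
theorem dvd_of_large {R : Type*} [CommRing R] [IsDomain R] [UniqueFactorizationMonoid R]
    {B G : R} (hB : B ≠ 0) (hG : G ≠ 0) (q1 N : ℕ)
    (h : ∀ X : ℕ, ∃ q' a' : ℕ, X < q' ∧ a' * N < q1 * q' + N ∧ B ^ q' ∣ G ^ a') :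
    B ^ N ∣ G ^ q1 := by
  rw [UniqueFactorizationMonoid.dvd_iff_emultiplicity_le (pow_ne_zero _ hB)]
  intro f hf
  have hfB := FiniteMultiplicity.of_prime_left hf hB
  have hfG := FiniteMultiplicity.of_prime_left hf hG
  rw [emultiplicity_pow hf, emultiplicity_pow hf, hfB.emultiplicity_eq_multiplicity,
    hfG.emultiplicity_eq_multiplicity]
  obtain ⟨b, hb⟩ : ∃ b, b = multiplicity f B := ⟨_, rfl⟩
  obtain ⟨φ, hφ⟩ : ∃ φ, φ = multiplicity f G := ⟨_, rfl⟩
  rw [← hb, ← hφ]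
  have key : N * b ≤ q1 * φ := by
    obtain ⟨q', a', hq', ha', hdvd⟩ := h (N * φ)
    rw [UniqueFactorizationMonoid.dvd_iff_emultiplicity_le (pow_ne_zero _ hB)] at hdvd
    have h1 := hdvd f hf
    rw [emultiplicity_pow hf, emultiplicity_pow hf, hfB.emultiplicity_eq_multiplicity,
      hfG.emultiplicity_eq_multiplicity, ← hb, ← hφ] at h1
    have h2 : q' * b ≤ a' * φ := by exact_mod_cast h1
    by_contra hcon
    push Not at hcon
    have h3 : N * (q' * b) ≤ N * (a' * φ) := Nat.mul_le_mul_left _ h2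
    have h4 : a' * N * φ ≤ (q1 * q' + N) * φ := Nat.mul_le_mul_right _ ha'.le
    have h5 : q' * (q1 * φ + 1) ≤ q' * (N * b) := Nat.mul_le_mul_left _ hcon
    have e1 : N * (q' * b) = q' * (N * b) := by ring
    have e2 : N * (a' * φ) = a' * N * φ := by ring
    have e3 : q' * (q1 * φ + 1) = q1 * q' * φ + q' := by ring
    have e4 : (q1 * q' + N) * φ = q1 * q' * φ + N * φ := by ring
    omega
  exact_mod_cast key

theorem ceil_deg {Q N D g a' : ℕ} (hN : 1 ≤ N) (hg : g < N * (D + 1)) (ha : a' * N < Q + N)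
    (hQ : N * N * (D + 1) < Q) : a' * g < Q * (D + 1) := by
  by_contra hcon
  push Not at hcon
  have h1 : N * (Q * (D + 1)) ≤ N * (a' * g) := Nat.mul_le_mul_left _ hcon
  have h2 : (a' * N) * g ≤ (Q + N - 1) * g := Nat.mul_le_mul_right _ (by omega)
  have h3 : (Q + N - 1) * (g + 1) ≤ (Q + N - 1) * (N * (D + 1)) := Nat.mul_le_mul_left _ hg
  obtain ⟨P, hP⟩ : ∃ P, P = Q + N - 1 := ⟨_, rfl⟩
  have hP1 : P + 1 = Q + N := by omega
  rw [← hP] at h2 h3
  have h4 : (P + 1) * (N * (D + 1)) = (Q + N) * (N * (D + 1)) := by rw [hP1]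
  have e1 : N * (a' * g) = a' * N * g := by ring
  have e2 : P * (g + 1) = P * g + P := by ring
  have e3 : (P + 1) * (N * (D + 1)) = P * (N * (D + 1)) + N * (D + 1) := by ring
  have e4 : (Q + N) * (N * (D + 1)) = N * (Q * (D + 1)) + N * N * (D + 1) := by ring
  omega

end FIX_

open FIX_ in
theorem fix_proof (hTHB : Stmt_THB.{u}) (hTHC : Stmt_THC.{u}) (hTHD : Stmt_THD.{u})
    (hLAM : Stmt_LAM.{u}) : Stmt_FIX.{u} := by
  intro σ _ _ k _ p hpf _ _ s S c l m n t d F hσ hn hm ht hF hFd hVan hnot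
  obtain ⟨e, a, lam, hlam, hX, hne⟩ :=
    hLAM σ k p s S c l m n t d F hσ hn hm ht hF hFd hVan hnot
  obtain ⟨D, hD⟩ : ∃ D, D = d / t := ⟨_, rfl⟩
  rw [← hD] at hlam hX ⊢
  have hH : F ^ a ≠ 0 := pow_ne_zero _ hF
  obtain ⟨hle, hA1h⟩ := hTHC σ k p s S c l m n D e lam hσ hn hm hlam (F ^ a) (a * d) hX hne
  obtain ⟨A0, B, g0, hrel, e1, e2⟩ :=
    UniqueFactorizationMonoid.exists_reduced_factors (Th p e lam (F ^ a)) hne (F ^ a)
  obtain ⟨hXv, hXh, hXd⟩ := hX
  have hp1 : 1 < p := hpf.out.one_lt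
  have hg0 : g0 ≠ 0 := by
    rintro rfl
    rw [zero_mul] at e2
    exact hH e2.symm
  have hB0 : B ≠ 0 := by
    rintro rfl
    rw [mul_zero] at e2
    exact hH e2.symm
  have hA0 : A0 ≠ 0 := by
    rintro rfl
    rw [mul_zero] at e1
    exact hne e1.symm
  have d1 : (F ^ a).totalDegree = a * d := hXh.totalDegree hH
  have d2 : (Th p e lam (F ^ a)).totalDegree = a * d - p ^ e * D := hA1h.totalDegree hne
  rw [← e2, totalDegree_mul_of_isDomain hg0 hB0] at d1
  rw [← e1, totalDegree_mul_of_isDomain hg0 hA0] at d2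
  -- forms of the levels `p ^ (e + e')`
  have step1 : ∀ (e' g : ℕ) (G : MvPolynomial σ k),
      XN S c l m n D (p ^ (e + e')) g G → B ^ (p ^ e') ∣ G := by
    intro e' g G hG
    have hXH : XN S c l m n D (p ^ (e + e')) (a * d * p ^ e') ((F ^ a) ^ (p ^ e')) := by
      refine ⟨?_, hXh.pow _, ?_⟩
      · intro i hi
        have h1 := Ideal.pow_mem_pow (hXv i hi) (p ^ e')
        rw [← pow_mul] at h1
        have e3 : p ^ (e + e') * (m i + n - 1) = p ^ e * (m i + n - 1) * p ^ e' := by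
          rw [pow_add]; ring
        rwa [e3]
      · have hp : 0 < p ^ e' := pow_pos (by omega) _
        calc a * d * p ^ e' < p ^ e * (D + 1) * p ^ e' := Nat.mul_lt_mul_of_pos_right hXd hp
          _ = p ^ (e + e') * (D + 1) := by rw [pow_add]; ring
    have h1 := hTHD σ k p s S c l m n D (e + e') lam hσ hn hm hlam G ((F ^ a) ^ (p ^ e')) g
      (a * d * p ^ e') hG hXH
    rw [hTHB σ k p e e' lam (F ^ a)] at h1
    have h1' : Th p (e + e') lam G * (g0 * B) ^ (p ^ e') = G * (g0 * A0) ^ (p ^ e') := by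
      rw [e1, e2]; exact h1
    rw [mul_pow, mul_pow] at h1'
    have h2 : Th p (e + e') lam G * B ^ (p ^ e') = G * A0 ^ (p ^ e') := by
      apply mul_left_cancel₀ (pow_ne_zero (p ^ e') hg0)
      linear_combination h1'
    have h3 : IsRelPrime (B ^ (p ^ e')) (A0 ^ (p ^ e')) :=
      IsRelPrime.pow_right (IsRelPrime.pow_left hrel.symm)
    refine h3.dvd_of_dvd_mul_right ⟨Th p (e + e') lam G, ?_⟩
    rw [← h2]
    ring
  refine ⟨p ^ e, B, Nat.one_le_pow _ _ (by omega), hB0, by omega, ?_⟩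
  intro N g G hN hG hGX
  obtain ⟨hGv, hGh, hGd⟩ := hGX
  apply dvd_of_large hB0 hG (p ^ e) N
  intro X
  obtain ⟨e', he'⟩ : ∃ e', e' = X + N * N * (D + 1) := ⟨_, rfl⟩
  have hq' : e' < p ^ e' := Nat.lt_pow_self hp1
  obtain ⟨Q, hQ⟩ : ∃ Q, Q = p ^ e * p ^ e' := ⟨_, rfl⟩
  have hQ' : Q = p ^ (e + e') := by rw [hQ, pow_add]
  have hQq : p ^ e' ≤ Q := by
    rw [hQ]
    exact Nat.le_mul_of_pos_left _ (pow_pos (by omega) _)
  obtain ⟨a', ha'⟩ : ∃ a', a' = (Q + N - 1) / N := ⟨_, rfl⟩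
  have hdm : N * a' + (Q + N - 1) % N = Q + N - 1 := by
    rw [ha']; exact Nat.div_add_mod _ _
  have hmod : (Q + N - 1) % N < N := Nat.mod_lt _ (by omega)
  have hNa : a' * N = N * a' := Nat.mul_comm _ _
  have hlt : a' * N < Q + N := by omega
  refine ⟨p ^ e', a', by omega, by rw [← hQ]; exact hlt, ?_⟩
  apply step1 e' (g * a')
  rw [← hQ']
  refine ⟨?_, hGh.pow a', ?_⟩
  · intro i hi
    have h1 := Ideal.pow_mem_pow (hGv i hi) a'
    rw [← pow_mul] at h1
    refine Ideal.pow_le_pow_right ?_ h1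
    have h2 : Q ≤ N * a' := by omega
    calc Q * (m i + n - 1) ≤ N * a' * (m i + n - 1) := Nat.mul_le_mul_right _ h2
      _ = N * (m i + n - 1) * a' := by ring
  · rw [mul_comm]
    exact ceil_deg hN hGd hlt (by omega)

end Pool.Agent.HHC
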