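import Pool.Agent.HHC.Stmts

/-!
Squad HHC, module HAS: Hasse derivatives.
-/

set_option autoImplicit false

namespace Pool.Agent.HHC

open MvPolynomial Pool.Agent.Lib22a066

universe u

namespace HAS_

variable {σ : Type} [Fintype σ] [DecidableEq σ] {k : Type u} [Field k]

/-- the shift of the variable `x_i` -/
noncomputable def Ph (i : σ) : MvPolynomial σ k →ₐ[k] Polynomial (MvPolynomial σ k) :=
  aeval (fun j => if j = i then Polynomial.C (X i) + Polynomial.X else Polynomial.C (X j))

theorem Ph_X_self (i : σ) : Ph (k := k) i (X i) = Polynomial.C (X i) + Polynomial.X := by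
  unfold Ph
  rw [aeval_X, if_pos rfl]

theorem Ph_X_ne (i j : σ) (h : j ≠ i) : Ph (k := k) i (X j) = Polynomial.C (X j) := by
  unfold Ph
  rw [aeval_X, if_neg h]

theorem Ph_C (i : σ) (a : k) : Ph (k := k) i (C a) = Polynomial.C (C a) := by
  unfold Ph
  rw [aeval_C]
  rfl

theorem coeff_zero_Ph (i : σ) (f : MvPolynomial σ k) : (Ph i f).coeff 0 = f := by
  induction f using MvPolynomial.induction_on with
  | C a => rw [Ph_C, Polynomial.coeff_C_zero]
  | add p q hp hq => rw [map_add, Polynomial.coeff_add, hp, hq]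
  | mul_X p j hp =>
    rw [map_mul, Polynomial.mul_coeff_zero, hp]
    congr 1
    by_cases h : j = i
    · subst h
      rw [Ph_X_self, Polynomial.coeff_add, Polynomial.coeff_C_zero, Polynomial.coeff_X_zero,
        add_zero]
    · rw [Ph_X_ne i j h, Polynomial.coeff_C_zero]

theorem coeff_one_mul (P Q : Polynomial (MvPolynomial σ k)) :
    (P * Q).coeff 1 = P.coeff 0 * Q.coeff 1 + P.coeff 1 * Q.coeff 0 := by
  rw [Polynomial.coeff_mul, Finset.Nat.antidiagonal_succ]
  simp

theorem coeff_one_Ph (i : σ) (f : MvPolynomial σ k) : (Ph i f).coeff 1 = pderiv i f := by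
  induction f using MvPolynomial.induction_on with
  | C a => rw [Ph_C, pderiv_C, Polynomial.coeff_C, if_neg one_ne_zero]
  | add p q hp hq => rw [map_add, Polynomial.coeff_add, hp, hq, map_add]
  | mul_X p j hp =>
    rw [map_mul, coeff_one_mul, hp, coeff_zero_Ph, coeff_zero_Ph, pderiv_mul]
    have h1 : (Ph i (X j : MvPolynomial σ k)).coeff 1 = pderiv i (X j) := by
      by_cases h : j = i
      · subst h
        rw [Ph_X_self, Polynomial.coeff_add, Polynomial.coeff_C, if_neg one_ne_zero,
          Polynomial.coeff_X_one, zero_add, pderiv_X_self]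
      · rw [Ph_X_ne i j h, Polynomial.coeff_C, if_neg one_ne_zero, pderiv_X_of_ne h]
    rw [h1]
    ring

/-- the Hasse derivative -/
noncomputable def Dh (i : σ) (s : ℕ) : MvPolynomial σ k →ₗ[k] MvPolynomial σ k :=
  ((Polynomial.lcoeff (MvPolynomial σ k) s).restrictScalars k).comp (Ph (k := k) i).toLinearMap

theorem Dh_apply (i : σ) (s : ℕ) (f : MvPolynomial σ k) : Dh i s f = (Ph i f).coeff s := rfl

/-- the filtration -/
def KW (P : Ideal (MvPolynomial σ k)) (W : ℕ) (Q : Polynomial (MvPolynomial σ k)) : Prop :=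
  ∀ j, Q.coeff j ∈ P ^ (W - j)

theorem KW_add (P : Ideal (MvPolynomial σ k)) (W : ℕ) (Q R : Polynomial (MvPolynomial σ k))
    (hQ : KW P W Q) (hR : KW P W R) : KW P W (Q + R) := by
  intro j
  rw [Polynomial.coeff_add]
  exact Ideal.add_mem _ (hQ j) (hR j)

theorem KW_mul (P : Ideal (MvPolynomial σ k)) (W V : ℕ) (Q R : Polynomial (MvPolynomial σ k))
    (hQ : KW P W Q) (hR : KW P V R) : KW P (W + V) (Q * R) := by
  intro j
  rw [Polynomial.coeff_mul]
  apply Ideal.sum_mem
  intro x hx
  have hx' := Finset.HasAntidiagonal.mem_antidiagonal.mp hx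
  have h1 : Q.coeff x.1 * R.coeff x.2 ∈ P ^ (W - x.1) * P ^ (V - x.2) :=
    Ideal.mul_mem_mul (hQ x.1) (hR x.2)
  rw [← pow_add] at h1
  exact Ideal.pow_le_pow_right (by omega) h1

theorem KW_Ph (P : Ideal (MvPolynomial σ k)) (i : σ) (W : ℕ) :
    ∀ G ∈ P ^ W, KW P W (Ph i G) := by
  induction W with
  | zero =>
    intro G _ j
    rw [Nat.zero_sub, pow_zero, Ideal.one_eq_top]
    exact Submodule.mem_top
  | succ W ih =>
    intro G hG
    rw [pow_succ] at hG
    refine Submodule.mul_induction_on hG ?_ ?_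
    · intro a ha b hb
      rw [map_mul]
      apply KW_mul P W 1 _ _ (ih a ha)
      intro j
      rcases Nat.eq_zero_or_pos j with h | h
      · subst h
        rw [coeff_zero_Ph, Nat.sub_zero, pow_one]
        exact hb
      · have : 1 - j = 0 := by omega
        rw [this, pow_zero, Ideal.one_eq_top]
        exact Submodule.mem_top
    · intro a b ha hb
      rw [map_add]
      exact KW_add P _ _ _ ha hb

/-- homogeneity -/
def GH (e : ℕ) (Q : Polynomial (MvPolynomial σ k)) : Prop :=
  ∀ j, (Q.coeff j).IsHomogeneous (e - j) ∧ (e < j → Q.coeff j = 0)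

theorem GH_mul (e f : ℕ) (Q R : Polynomial (MvPolynomial σ k)) (hQ : GH e Q) (hR : GH f R) :
    GH (e + f) (Q * R) := by
  intro j
  rw [Polynomial.coeff_mul]
  constructor
  · apply IsHomogeneous.sum
    intro x hx
    have hx' := Finset.HasAntidiagonal.mem_antidiagonal.mp hx
    by_cases h1 : e < x.1
    · rw [(hQ x.1).2 h1, zero_mul]
      exact isHomogeneous_zero _ _ _
    · by_cases h2 : f < x.2
      · rw [(hR x.2).2 h2, mul_zero]
        exact isHomogeneous_zero _ _ _
      · have h3 := (hQ x.1).1.mul (hR x.2).1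
        have h4 : e - x.1 + (f - x.2) = e + f - j := by omega
        rw [h4] at h3
        exact h3
  · intro hj
    apply Finset.sum_eq_zero
    intro x hx
    have hx' := Finset.HasAntidiagonal.mem_antidiagonal.mp hx
    by_cases h1 : e < x.1
    · rw [(hQ x.1).2 h1, zero_mul]
    · rw [(hR x.2).2 (by omega), mul_zero]

theorem GH_one : GH 0 (1 : Polynomial (MvPolynomial σ k)) := by
  intro j
  rw [Polynomial.coeff_one]
  constructor
  · split_ifs with h
    · rw [Nat.zero_sub]
      exact isHomogeneous_one _ _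
    · exact isHomogeneous_zero _ _ _
  · intro h
    rw [if_neg (by omega)]

theorem GH_pow (e m : ℕ) (Q : Polynomial (MvPolynomial σ k)) (hQ : GH e Q) :
    GH (m * e) (Q ^ m) := by
  induction m with
  | zero =>
    rw [pow_zero, zero_mul]
    exact GH_one
  | succ m ih =>
    rw [pow_succ, Nat.succ_mul]
    exact GH_mul _ _ _ _ ih hQ

theorem GH_C (a : MvPolynomial σ k) (e : ℕ) (ha : a.IsHomogeneous e) :
    GH e (Polynomial.C a) := by
  intro j
  rw [Polynomial.coeff_C]
  constructor
  · split_ifs with h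
    · subst h
      rw [Nat.sub_zero]
      exact ha
    · exact isHomogeneous_zero _ _ _
  · intro h
    rw [if_neg (by omega)]

theorem GH_Ph_X (i j : σ) : GH 1 (Ph (k := k) i (X j)) := by
  by_cases h : j = i
  · subst h
    rw [Ph_X_self]
    intro s
    rw [Polynomial.coeff_add]
    constructor
    · apply IsHomogeneous.add
      · exact (GH_C _ 1 (isHomogeneous_X k j) s).1
      · rw [Polynomial.coeff_X]
        split_ifs with h
        · subst h
          rw [Nat.sub_self]
          exact isHomogeneous_one _ _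
        · exact isHomogeneous_zero _ _ _
    · intro hs
      rw [(GH_C _ 1 (isHomogeneous_X k j) s).2 hs, Polynomial.coeff_X, if_neg (by omega), zero_add]
  · rw [Ph_X_ne i j h]
    exact GH_C _ 1 (isHomogeneous_X k j)

theorem GH_Ph_monomial (i : σ) (α : σ →₀ ℕ) (a : k) : GH α.degree (Ph (k := k) i (monomial α a)) := by
  rw [monomial_eq, map_mul, Ph_C]
  have h0 : GH 0 (Polynomial.C (C a : MvPolynomial σ k)) := GH_C _ 0 (isHomogeneous_C σ a)
  have h1 : ∀ t : Finset σ, GH (∑ j ∈ t, α j) (Ph (k := k) i (∏ j ∈ t, X j ^ α j)) := by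
    intro t
    induction t using Finset.induction_on with
    | empty =>
      rw [Finset.sum_empty, Finset.prod_empty, map_one]
      exact GH_one
    | insert b t hb ih =>
      rw [Finset.sum_insert hb, Finset.prod_insert hb, map_mul, map_pow]
      apply GH_mul _ _ _ _ _ ih
      have := GH_pow 1 (α b) _ (GH_Ph_X (k := k) i b)
      rw [mul_one] at this
      exact this
  have h2 := GH_mul _ _ _ _ h0 (h1 α.support)
  rw [zero_add] at h2
  exact h2

theorem hom_Dh (i : σ) (s e : ℕ) (G : MvPolynomial σ k) (hG : G.IsHomogeneous e) :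
    (Dh i s G).IsHomogeneous (e - s) := by
  rw [G.as_sum, map_sum]
  apply IsHomogeneous.sum
  intro α hα
  have h1 : α.degree = e := by
    have h0 := hG (mem_support_iff.mp hα)
    rw [← h0, Finsupp.degree_eq_weight_one, Pi.one_def]
  have h2 := (GH_Ph_monomial (k := k) i α (coeff α G) s).1
  rw [h1] at h2
  exact h2

/-- the expansion of a power -/
theorem expand (i : σ) (s M : ℕ) (hs : s ≤ M) (f U : MvPolynomial σ k) :
    ∃ R : MvPolynomial σ k, Dh i s (f ^ M * U) =
      f ^ (M - s) * (((M.choose s : ℕ) : MvPolynomial σ k) * ((pderiv i f) ^ s * U))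
        + f ^ (M - s + 1) * R := by
  obtain ⟨Ψ, hΨ⟩ : Polynomial.X ∣ Ph i f - Polynomial.C f := by
    rw [Polynomial.X_dvd_iff, Polynomial.coeff_sub, coeff_zero_Ph, Polynomial.coeff_C_zero,
      sub_self]
  have hf : Ph i f = Polynomial.X * Ψ + Polynomial.C f := by
    rw [← hΨ]
    ring
  have hΨ0 : Ψ.coeff 0 = pderiv i f := by
    rw [← coeff_one_Ph, hf, Polynomial.coeff_add, Polynomial.coeff_C, if_neg one_ne_zero, add_zero,
      Polynomial.coeff_X_mul]
  have hterm : ∀ j ∈ Finset.range (M + 1), ∃ r : MvPolynomial σ k,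
      ((Polynomial.X * Ψ) ^ j * (Polynomial.C f) ^ (M - j) *
        ((M.choose j : ℕ) : Polynomial (MvPolynomial σ k)) * Ph i U).coeff s =
      (if j = s then f ^ (M - s) * (((M.choose s : ℕ) : MvPolynomial σ k) *
        ((pderiv i f) ^ s * U)) else 0) + f ^ (M - s + 1) * r := by
    intro j hj
    have hj' : j ≤ M := Nat.lt_succ_iff.mp (Finset.mem_range.mp hj)
    have e1 : (Polynomial.X * Ψ) ^ j * (Polynomial.C f) ^ (M - j) *
        ((M.choose j : ℕ) : Polynomial (MvPolynomial σ k)) * Ph i U =
        Polynomial.C (f ^ (M - j) * ((M.choose j : ℕ) : MvPolynomial σ k)) *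
          (Ψ ^ j * Ph i U) * Polynomial.X ^ j := by
      rw [mul_pow, Polynomial.C_mul, Polynomial.C_pow]
      have : Polynomial.C ((M.choose j : ℕ) : MvPolynomial σ k) =
        ((M.choose j : ℕ) : Polynomial (MvPolynomial σ k)) := by simp
      rw [this]
      ring
    rw [e1, Polynomial.coeff_mul_X_pow']
    rcases lt_trichotomy j s with h | h | h
    · rw [if_pos h.le, if_neg h.ne, Polynomial.coeff_C_mul]
      refine ⟨f ^ (s - j - 1) * (((M.choose j : ℕ) : MvPolynomial σ k) *
        (Ψ ^ j * Ph i U).coeff (s - j)), ?_⟩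
      have e2 : M - j = (M - s + 1) + (s - j - 1) := by omega
      rw [e2, pow_add]
      ring
    · subst h
      rw [if_pos le_rfl, if_pos rfl, Polynomial.coeff_C_mul, Nat.sub_self,
        Polynomial.mul_coeff_zero, coeff_zero_Ph, Polynomial.coeff_zero_eq_eval_zero,
        Polynomial.eval_pow, ← Polynomial.coeff_zero_eq_eval_zero, hΨ0]
      refine ⟨0, ?_⟩
      ring
    · rw [if_neg (by omega), if_neg h.ne']
      exact ⟨0, by ring⟩
  choose! r hr using hterm
  refine ⟨∑ j ∈ Finset.range (M + 1), r j, ?_⟩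
  rw [Dh_apply, map_mul, map_pow, hf, add_pow, Finset.sum_mul, Polynomial.finsetSum_coeff,
    Finset.sum_congr rfl hr, Finset.sum_add_distrib, Finset.mul_sum]
  congr 1
  rw [Finset.sum_ite_eq', if_pos (Finset.mem_range.mpr (by omega))]

end HAS_

theorem has_proof : Stmt_HAS.{u} := by
  intro σ _ _ k _ i s
  refine ⟨HAS_.Dh i s, ?_, ?_, ?_⟩
  · intro c l W G hG
    exact HAS_.KW_Ph (pid c l) i W G hG s
  · intro G e hG
    exact HAS_.hom_Dh i s e G hG
  · intro f U M hf hU hd hs hc
    obtain ⟨R, hR⟩ := HAS_.expand i s M hs f U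
    constructor
    · rw [hR]
      apply dvd_add
      · exact dvd_mul_right _ _
      · rw [pow_succ, mul_assoc]
        exact dvd_mul_right _ _
    · intro hdvd
      rw [hR] at hdvd
      have h1 : f ^ (M - s + 1) ∣
          f ^ (M - s) * (((M.choose s : ℕ) : MvPolynomial σ k) * ((pderiv i f) ^ s * U)) :=
        (dvd_add_left (dvd_mul_right _ _)).mp hdvd
      rw [pow_succ] at h1
      have h2 : f ∣ ((M.choose s : ℕ) : MvPolynomial σ k) * ((pderiv i f) ^ s * U) :=
        (mul_dvd_mul_iff_left (pow_ne_zero _ hf.ne_zero)).mp h1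
      rcases hf.dvd_or_dvd h2 with h3 | h3
      · apply hf.not_isUnit
        apply isUnit_of_dvd_unit h3
        have h4 : ((M.choose s : ℕ) : MvPolynomial σ k) = C ((M.choose s : ℕ) : k) := by simp
        rw [h4]
        exact (isUnit_iff_ne_zero.mpr hc).map C
      · rcases hf.dvd_or_dvd h3 with h4 | h4
        · exact hd (hf.dvd_of_dvd_pow h4)
        · exact hU h4

end Pool.Agent.HHC
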