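import Pool.Agent.HHC.Stmts

/-!
Squad HHC (MP_22a066_ag), module HOM: factors of a form are forms.
-/

set_option autoImplicit false

namespace Pool.Agent.HHC

open MvPolynomial Pool.Agent.Lib22a066

universe u

namespace HOM_

variable {σ : Type} {k : Type u} [Field k]

/-- grading substitution `X_j ↦ X_j T` -/
noncomputable def Phi (σ : Type) (k : Type u) [Field k] :
    MvPolynomial σ k →ₐ[k] Polynomial (MvPolynomial σ k) :=
  aeval (fun j => Polynomial.C (X j) * Polynomial.X)

theorem Phi_monomial (α : σ →₀ ℕ) (a : k) :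
    Phi σ k (monomial α a) = Polynomial.C (monomial α a) * Polynomial.X ^ α.degree := by
  have h1 : (algebraMap k (Polynomial (MvPolynomial σ k))) a
      = Polynomial.C (C a : MvPolynomial σ k) := rfl
  unfold Phi
  rw [aeval_monomial, monomial_eq, h1, Polynomial.C_mul]
  have h2 : (α.prod fun i e => (Polynomial.C (X i : MvPolynomial σ k) * Polynomial.X) ^ e)
      = Polynomial.C (α.prod fun i e => (X i : MvPolynomial σ k) ^ e)
        * (Polynomial.X : Polynomial (MvPolynomial σ k)) ^ α.degree := by
    unfold Finsupp.prod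
    rw [Finsupp.degree_apply, ← Finset.prod_pow_eq_pow_sum, map_prod, ← Finset.prod_mul_distrib]
    apply Finset.prod_congr rfl
    intro i _
    show (Polynomial.C (X i : MvPolynomial σ k) * Polynomial.X) ^ (α i) = Polynomial.C ((X i : MvPolynomial σ k) ^ (α i)) * Polynomial.X ^ α i
    rw [mul_pow, Polynomial.C_pow]
  rw [h2, mul_assoc]

theorem Phi_homog {f : MvPolynomial σ k} {n : ℕ} (hf : f.IsHomogeneous n) :
    Phi σ k f = Polynomial.C f * Polynomial.X ^ n := by
  conv_lhs => rw [f.as_sum]
  conv_rhs => rw [f.as_sum]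
  rw [map_sum, map_sum, Finset.sum_mul]
  apply Finset.sum_congr rfl
  intro d hd
  rw [Phi_monomial]
  have h1 : d.degree = n := by
    have := hf (mem_support_iff.mp hd)
    rw [← this]
    exact congrFun (congrArg DFunLike.coe Finsupp.degree_eq_weight_one) d
  rw [h1]

theorem coeff_Phi (f : MvPolynomial σ k) (v : ℕ) :
    (Phi σ k f).coeff v = homogeneousComponent v f := by
  have h1 : Phi σ k f = ∑ i ∈ Finset.range (f.totalDegree + 1),
      Polynomial.C (homogeneousComponent i f) * Polynomial.X ^ i := by
    conv_lhs => rw [← f.sum_homogeneousComponent]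
    rw [map_sum]
    apply Finset.sum_congr rfl
    intro i _
    exact Phi_homog (homogeneousComponent_isHomogeneous i f)
  rw [h1, Polynomial.finsetSum_coeff]
  simp only [Polynomial.coeff_C_mul, Polynomial.coeff_X_pow, mul_ite, mul_one, mul_zero]
  rw [Finset.sum_ite_eq]
  split_ifs with h2
  · rfl
  · rw [homogeneousComponent_eq_zero]
    rw [Finset.mem_range] at h2
    omega

theorem homog_of {f : MvPolynomial σ k} {a : ℕ} (h1 : (Phi σ k f).natDegree = a)
    (h2 : (Phi σ k f).natTrailingDegree = a) : f.IsHomogeneous a := by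
  have h3 : ∀ v, v ≠ a → homogeneousComponent v f = 0 := by
    intro v hv
    rw [← coeff_Phi]
    rcases lt_or_gt_of_ne hv with h | h
    · apply Polynomial.coeff_eq_zero_of_lt_natTrailingDegree
      rw [h2]; exact h
    · apply Polynomial.coeff_eq_zero_of_natDegree_lt
      rw [h1]; exact h
  have h4 : f = homogeneousComponent a f := by
    conv_lhs => rw [← f.sum_homogeneousComponent]
    by_cases h5 : a ∈ Finset.range (f.totalDegree + 1)
    · exact Finset.sum_eq_single_of_mem a h5 (fun b _ hb => h3 b hb)
    · rw [homogeneousComponent_eq_zero a f (by rw [Finset.mem_range] at h5; omega)]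
      apply Finset.sum_eq_zero
      intro i hi
      apply h3
      rintro rfl
      exact h5 hi
  rw [h4]
  exact homogeneousComponent_isHomogeneous a f

end HOM_

open HOM_ in
theorem hom_proof : Stmt_HOM.{u} := by
  intro σ k _ f g d hne hd
  have hf : f ≠ 0 := left_ne_zero_of_mul hne
  have hg : g ≠ 0 := right_ne_zero_of_mul hne
  have hinj : ∀ h : MvPolynomial σ k, h ≠ 0 → Phi σ k h ≠ 0 := by
    intro h hh h0
    apply hh
    rw [← h.sum_homogeneousComponent]
    apply Finset.sum_eq_zero
    intro i _
    rw [← coeff_Phi, h0, Polynomial.coeff_zero]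
  have h1 : Phi σ k f * Phi σ k g = Polynomial.C (f * g) * Polynomial.X ^ d := by
    rw [← map_mul, Phi_homog hd]
  have h2 : (Phi σ k f).natDegree + (Phi σ k g).natDegree = d := by
    rw [← Polynomial.natDegree_mul (hinj f hf) (hinj g hg), h1,
      Polynomial.natDegree_C_mul_X_pow _ _ hne]
  have h3 : (Phi σ k f).natTrailingDegree + (Phi σ k g).natTrailingDegree = d := by
    rw [← Polynomial.natTrailingDegree_mul (hinj f hf) (hinj g hg), h1,
      Polynomial.C_mul_X_pow_eq_monomial, Polynomial.natTrailingDegree_monomial hne]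
  have h4 := Polynomial.natTrailingDegree_le_natDegree (Phi σ k f)
  have h5 := Polynomial.natTrailingDegree_le_natDegree (Phi σ k g)
  exact ⟨(Phi σ k f).natDegree, (Phi σ k g).natDegree, h2,
    homog_of rfl (by omega), homog_of rfl (by omega)⟩

end Pool.Agent.HHC
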