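import Pool.Agent.HHC.Stmts

/-!
# Squad HHC (MP_22a066_ag), module IND: induction, prime factors of multiplicity at least `t`
-/

set_option autoImplicit false

namespace Pool.Agent.HHC

open MvPolynomial Pool.Agent.Lib22a066

universe u

namespace IND_

lemma mem_wsymb {σ : Type} [DecidableEq σ] {k : Type u} [CommRing k] {s : Type} {S : Finset s}
    {c : s → σ → k} {l : s → σ} {m : s → ℕ} {f : MvPolynomial σ k} :
    f ∈ wsymb S c l m ↔ ∀ i ∈ S, f ∈ pid (c i) (l i) ^ (m i) := by
  unfold wsymb
  simp only [Submodule.mem_iInf]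

lemma mul_low_mem {σ : Type} {k : Type u} [CommRing k] [DecidableEq σ]
    {J J' : Ideal (MvPolynomial σ k)} {f : MvPolynomial σ k} {δ D : ℕ}
    (hf : f.IsHomogeneous δ) (hJ : ∀ g ∈ J', f * g ∈ J) :
    ∀ g ∈ low J' (D - δ), f * g ∈ low J D := by
  intro g hg
  unfold low at hg
  refine Submodule.span_induction ?_ ?_ ?_ ?_ hg
  · rintro x ⟨hxJ, j, hj, hxh⟩
    exact mem_low (hJ x hxJ) (show δ + j < D by omega) (hf.mul hxh)
  · rw [mul_zero]
    exact Ideal.zero_mem _
  · intro x y _ _ hx hy
    rw [mul_add]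
    exact Ideal.add_mem _ hx hy
  · intro a x _ hx
    rw [smul_eq_mul, mul_left_comm]
    exact Ideal.mul_mem_left _ _ hx

lemma pow_mul_mem {R : Type u} [CommRing R] {A B : Ideal R} {f : R}
    (h : ∀ g ∈ A, f * g ∈ B) (t : ℕ) : ∀ F ∈ A ^ t, f ^ t * F ∈ B ^ t := by
  have hle : Ideal.span {f} * A ≤ B := by
    rw [Ideal.mul_le]
    intro r hr g hg
    rw [Ideal.mem_span_singleton'] at hr
    obtain ⟨a, rfl⟩ := hr
    rw [mul_assoc]
    exact Ideal.mul_mem_left _ _ (h g hg)
  intro F hF
  have h1 : f ^ t * F ∈ (Ideal.span {f}) ^ t * A ^ t :=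
    Ideal.mul_mem_mul (Ideal.pow_mem_pow (Ideal.mem_span_singleton_self f) t) hF
  rw [← mul_pow] at h1
  exact Ideal.pow_right_mono hle t h1

lemma ord_pow (hORD : Stmt_ORD.{u}) {σ : Type} [Fintype σ] [DecidableEq σ] {k : Type u} [Field k]
    {c : σ → k} {l : σ} {f : MvPolynomial σ k} {e : ℕ} (he : f ∉ pid c l ^ (e + 1)) (t : ℕ) :
    ∀ (W : ℕ) (G : MvPolynomial σ k), f ^ t * G ∈ pid c l ^ W → G ∈ pid c l ^ (W - t * e) := by
  induction t with
  | zero =>
    intro W G h
    simpa using h
  | succ t ih =>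
    intro W G h
    have h1 : f * (f ^ t * G) ∈ pid c l ^ W := by
      rw [← mul_assoc, ← pow_succ']
      exact h
    have h2 := (hORD σ k c l).1 f (f ^ t * G) e W he h1
    have h3 := ih (W - e) G h2
    have h4 : W - e - t * e = W - (t + 1) * e := by
      rw [Nat.sub_sub]
      ring_nf
    rwa [h4] at h3

lemma exists_ord (hORD : Stmt_ORD.{u}) {σ : Type} [Fintype σ] [DecidableEq σ] {k : Type u}
    [Field k] (c : σ → k) (l : σ) {f : MvPolynomial σ k} {δ : ℕ} (hf0 : f ≠ 0)
    (hf : f.IsHomogeneous δ) : ∃ e : ℕ, f ∈ pid c l ^ e ∧ f ∉ pid c l ^ (e + 1) := by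
  by_contra hcon
  push Not at hcon
  have hall : ∀ e : ℕ, f ∈ pid c l ^ e := by
    intro e
    induction e with
    | zero =>
      rw [pow_zero, Ideal.one_eq_top]
      exact Submodule.mem_top
    | succ e ih => exact hcon e ih
  have := (hORD σ k c l).2 f δ (δ + 1) hf0 hf (hall _)
  omega

lemma mem_of_le {σ : Type} [DecidableEq σ] {k : Type u} [Field k] {c : σ → k} {l : σ}
    {f : MvPolynomial σ k} {a b : ℕ} (hab : a ≤ b) (h : f ∈ pid c l ^ b) : f ∈ pid c l ^ a :=
  Ideal.pow_le_pow_right hab h

end IND_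

open IND_ in
theorem ind_proof (hORD : Stmt_ORD.{u}) (hHOM : Stmt_HOM.{u}) (hONE : Stmt_ONE.{u})
    (hNUM : Stmt_NUM.{u}) : Stmt_IND.{u} := by
  intro σ _ _ k _ p _ _ _ s S c l m n t d F hcard hn hS hm ht hF hV ht2
  induction d using Nat.strong_induction_on generalizing S m F with
  | _ d ih =>
  classical
  by_cases hF0 : F = 0
  · rw [hF0]
    exact Ideal.zero_mem _
  rcases Nat.eq_or_lt_of_le ht with h1 | h2
  · subst h1
    have h3 := hONE σ k p s S c l m n d F hcard hn hS hm hF hV
    rw [pow_one, Nat.div_one]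
    exact h3
  by_cases hpr : ∀ f : MvPolynomial σ k, Prime f → ¬ f ^ t ∣ F
  · exact hNUM σ k p s S c l m n t d F hcard hn hS hm h2 hF0 hF hV ht2 hpr
  push Not at hpr
  obtain ⟨f, hf, F', hFF⟩ := hpr
  have hf0 : f ≠ 0 := hf.ne_zero
  have hF'0 : F' ≠ 0 := by
    rintro rfl
    rw [mul_zero] at hFF
    exact hF0 hFF
  -- degrees
  obtain ⟨a, b, hab, hfa, hF'b⟩ := hHOM σ k (f ^ t) F' d (by rw [← hFF]; exact hF0)
    (by rw [← hFF]; exact hF)
  obtain ⟨δ, δ', hδδ', hfδ, -⟩ := hHOM σ k f (f ^ (t - 1)) a
    (mul_ne_zero hf0 (pow_ne_zero _ hf0))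
    (by rw [← pow_succ', Nat.sub_add_cancel ht]; exact hfa)
  have haδ : a = δ * t := by
    have h3 : (f ^ t).IsHomogeneous (δ * t) := hfδ.pow t
    exact hfa.inj_right h3 (pow_ne_zero _ hf0)
  have hδ1 : 1 ≤ δ := by
    by_contra hδ
    have hδ0 : δ = 0 := by omega
    rw [hδ0] at hfδ
    have h3 : f.totalDegree = 0 := by
      have := hfδ.totalDegree hf0
      exact this
    rw [totalDegree_eq_zero_iff_eq_C] at h3
    apply hf.not_isUnit
    rw [h3]
    refine (IsUnit.map C ?_)
    rw [isUnit_iff_ne_zero]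
    intro h4
    rw [h4, C_0] at h3
    exact hf0 h3
  have hd : b + δ * t = d := by omega
  have hdiv : d / t = b / t + δ := by
    rw [← hd]
    exact Nat.add_mul_div_right b δ (by omega)
  have hmod : d % t = b % t := by
    rw [← hd]
    exact Nat.add_mul_mod_self_right b δ t
  have hbd : b < d := by
    have : 1 * 1 ≤ δ * t := Nat.mul_le_mul hδ1 ht
    omega
  -- orders
  choose e he1 he2 using fun i : s => exists_ord hORD (c i) (l i) hf0 hfδ
  have hF'ord : ∀ i ∈ S, F' ∈ pid (c i) (l i) ^ (t * (m i + n - 1) - t * e i) := by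
    intro i hi
    have h3 := hV i hi
    rw [hFF] at h3
    exact ord_pow hORD (he2 i) t _ _ h3
  set S' : Finset s := S.filter (fun i => e i < m i) with hS'
  by_cases hne : S'.Nonempty
  · -- induction
    have hind : F' ∈ low (wsymb S' c l (fun i => m i - e i)) (b / t) ^ t := by
      refine ih b hbd S' (fun i => m i - e i) F' hne ?_ hF'b ?_ ?_
      · intro i hi
        rw [hS', Finset.mem_filter] at hi
        have := hi.2
        show 1 ≤ m i - e i
        omega
      · intro i hi
        rw [hS', Finset.mem_filter] at hi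
        have h3 := hF'ord i hi.1
        have h4 := hi.2
        have h5 : t * (m i - e i + n - 1) = t * (m i + n - 1) - t * e i := by
          rw [← Nat.mul_sub]
          have : m i - e i + n - 1 = m i + n - 1 - e i := by omega
          rw [this]
        show F' ∈ pid (c i) (l i) ^ (t * (m i - e i + n - 1))
        rw [h5]
        exact h3
      · rw [← hmod]
        exact ht2
    rw [hFF]
    refine pow_mul_mem ?_ t F' hind
    have h6 : b / t = d / t - δ := by
      rw [hdiv, Nat.add_sub_cancel]
    rw [h6]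
    refine mul_low_mem hfδ ?_
    intro g hg
    rw [mem_wsymb] at hg ⊢
    intro i hi
    by_cases hi' : e i < m i
    · have h7 := hg i (by rw [hS', Finset.mem_filter]; exact ⟨hi, hi'⟩)
      have h8 := Ideal.mul_mem_mul (he1 i) h7
      rw [← pow_add] at h8
      exact mem_of_le (by omega) h8
    · exact Ideal.mul_mem_right _ _ (mem_of_le (by omega) (he1 i))
  · -- f itself is in the ideal
    rw [Finset.not_nonempty_iff_eq_empty] at hne
    have hem : ∀ i ∈ S, m i ≤ e i := by
      intro i hi
      by_contra hcon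
      have : i ∈ S' := by
        rw [hS', Finset.mem_filter]
        exact ⟨hi, by omega⟩
      rw [hne] at this
      exact absurd this (Finset.notMem_empty i)
    have hflow : f ∈ low (wsymb S c l m) (d / t) := by
      by_cases hb : b / t = 0
      · -- D = δ
        have hDδ : d / t = δ := by omega
        rw [hDδ]
        refine hONE σ k p s S c l m n δ f hcard hn hS hm hfδ ?_
        intro i hi
        have h3 := (hORD σ k (c i) (l i)).2 F' b _ hF'0 hF'b (hF'ord i hi)
        have hbt : b < t := by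
          rcases Nat.div_eq_zero_iff.mp hb with h4 | h4
          · omega
          · exact h4
        have h5 : m i + n - 1 ≤ e i := by
          by_contra hcon
          push Not at hcon
          rw [← Nat.mul_sub] at h3
          have h6 : t * 1 ≤ t * (m i + n - 1 - e i) := Nat.mul_le_mul_left t (by omega)
          omega
        refine mem_of_le ?_ (he1 i)
        rw [one_mul]
        exact h5
      · have hlt : δ < d / t := by
          rw [hdiv]
          have := Nat.pos_of_ne_zero hb
          exact Nat.lt_add_of_pos_left this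
        refine mem_low ?_ hlt hfδ
        rw [mem_wsymb]
        intro i hi
        exact mem_of_le (hem i hi) (he1 i)
    rw [hFF]
    exact Ideal.mul_mem_right _ _ (Ideal.pow_mem_pow hflow t)

end Pool.Agent.HHC
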