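import Pool.Agent.HHC.Stmts

/-!
# Squad HHC (MP_22a066_ag): module LAM
-/

set_option autoImplicit false

namespace Pool.Agent.HHC

open MvPolynomial Pool.Agent.Lib22a066

universe u

namespace LAM_

lemma exists_params (p : ℕ) (hp : 2 ≤ p) (t d : ℕ) (ht : 1 ≤ t) :
    ∃ e a : ℕ, p ^ e ≤ a * t ∧ a * t < p ^ e + t ∧ (t - 1) * d < p ^ e ∧
      a * d < p ^ e * (d / t + 1) := by
  obtain ⟨e, he⟩ : ∃ e, (t - 1) * d < p ^ e := ⟨(t - 1) * d, Nat.lt_pow_self (by omega)⟩
  refine ⟨e, (p ^ e + t - 1) / t, ?_, ?_, he, ?_⟩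
  · have h1 := Nat.lt_div_mul_add (a := p ^ e + t - 1) (b := t) (by omega)
    omega
  · have h1 := Nat.div_mul_le_self (p ^ e + t - 1) t
    omega
  · have h1 := Nat.div_mul_le_self (p ^ e + t - 1) t
    have h2 := Nat.lt_div_mul_add (a := d) (b := t) (by omega)
    set q := p ^ e with hq
    set a := (q + t - 1) / t with ha
    set D := d / t with hD
    have h3 : a * t ≤ q + (t - 1) := by omega
    have h4 : a * t * d ≤ (q + (t - 1)) * d := Nat.mul_le_mul_right _ h3
    have h5 : d + 1 ≤ (D + 1) * t := by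
      rw [Nat.add_mul, Nat.one_mul]; omega
    have h6 : q * (d + 1) ≤ q * ((D + 1) * t) := Nat.mul_le_mul_left _ h5
    have h7 : (q + (t - 1)) * d = q * d + (t - 1) * d := Nat.add_mul _ _ _
    have h8 : q * (d + 1) = q * d + q := by ring
    have h9 : a * d * t < q * (D + 1) * t := by
      calc a * d * t = a * t * d := by ring
        _ < q * ((D + 1) * t) := by omega
        _ = q * (D + 1) * t := by ring
    exact Nat.lt_of_mul_lt_mul_right h9

end LAM_

theorem lam_proof (hSTP : Stmt_STP.{u}) : Stmt_LAM.{u} := by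
  intro σ _ _ k _ p hp _ _ s S c l m n t d F hcard hn hm ht hF0 hF hvan hnot
  obtain ⟨e, a, h1, h2, h3, h4⟩ := LAM_.exists_params p hp.out.two_le t d ht
  have hpp : 0 < p ^ e := pow_pos hp.out.pos e
  have hex : ¬ ∀ β, T p e β (F ^ a) ∈ low (wsymb S c l m) (d / t) := fun hall =>
    hnot (hSTP σ k p (low (wsymb S c l m) (d / t)) t d e a F hF0 hF h1 h2 h3 hall)
  push Not at hex
  obtain ⟨β, hβ⟩ := hex
  obtain ⟨lam, hlam0, hlamJ⟩ := Submodule.exists_le_ker_of_notMem
    (p := (low (wsymb S c l m) (d / t)).restrictScalars k) (v := T p e β (F ^ a)) hβ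
  refine ⟨e, a, lam, fun f hf => hlamJ hf, ⟨?_, ?_, h4⟩, ?_⟩
  · intro i hi
    have h5 := Ideal.pow_mem_pow (hvan i hi) a
    rw [← pow_mul] at h5
    refine Ideal.pow_le_pow_right ?_ h5
    calc p ^ e * (m i + n - 1) ≤ (a * t) * (m i + n - 1) := Nat.mul_le_mul_right _ h1
      _ = t * (m i + n - 1) * a := by ring
  · have h5 := hF.pow a
    rwa [Nat.mul_comm] at h5
  · intro hzero
    have hBox : β ∈ Box σ (p ^ e) := by
      rw [mem_Box hpp]
      by_contra hcon
      push Not at hcon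
      obtain ⟨i, hi⟩ := hcon
      apply hβ
      rw [T_eq_zero_of_not_lt p e hi]
      exact Ideal.zero_mem _
    have hcoeff : coeff β (Th p e lam (F ^ a)) = (lam (T p e β (F ^ a))) ^ (p ^ e) := by
      unfold Th
      rw [coeff_sum, Finset.sum_eq_single β]
      · rw [coeff_monomial, if_pos rfl]
      · intro γ _ hne
        rw [coeff_monomial, if_neg hne]
      · intro hcon
        exact absurd hBox hcon
    rw [hzero, coeff_zero] at hcoeff
    exact pow_ne_zero _ hlam0 hcoeff.symm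

end Pool.Agent.HHC
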