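import Pool.Agent.HHC.Stmts

/-!
# NPD: an irreducible polynomial over a perfect field does not divide all its derivatives
-/

set_option autoImplicit false

namespace Pool.Agent.HHC

open MvPolynomial Pool.Agent.Lib22a066

universe u

theorem npd_proof : Stmt_NPD.{u} := by
  intro σ _ _ k _ p _ _ _ f hf
  by_contra hcon
  push Not at hcon
  have hder : ∀ i, pderiv i f = 0 := by
    intro i
    by_contra h0
    obtain ⟨g, hg⟩ := hcon i
    have hg0 : g ≠ 0 := by
      rintro rfl
      rw [mul_zero] at hg
      exact h0 hg
    have h1 : (pderiv i f).totalDegree = f.totalDegree + g.totalDegree := by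
      rw [hg]
      exact totalDegree_mul_of_isDomain hf.ne_zero hg0
    obtain ⟨m, hm, hm2⟩ := Finset.exists_mem_eq_sup (pderiv i f).support
      (support_nonempty.2 h0) (fun s => s.sum fun _ e => e)
    have h2 : (pderiv i f).totalDegree = m.sum fun _ e => e := hm2
    have h3 : m + Finsupp.single i 1 ∈ f.support := by
      rw [mem_support_iff] at hm ⊢
      intro h
      apply hm
      rw [coeff_pderiv, h]
      simp
    have h4 := le_totalDegree h3
    rw [Finsupp.sum_add_index' (fun _ => rfl) (fun _ _ _ => rfl),
      Finsupp.sum_single_index rfl] at h4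
    omega
  have h1 := eq_pow_of_pderiv_eq_zero p hder
  rw [h1] at hf
  exact not_irreducible_pow (Fact.out : p.Prime).one_lt.ne' hf

end Pool.Agent.HHC
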