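import Pool.Agent.HHC.Stmts

/-!
# Squad HHC, module NUM
-/

set_option autoImplicit false

namespace Pool.Agent.HHC

open MvPolynomial Pool.Agent.Lib22a066

universe u

namespace NUM_

theorem dvd_of_mult {R : Type*} [CommRing R] [IsDomain R] [UniqueFactorizationMonoid R]
    {a b : R} (ha : a ≠ 0) (hb : b ≠ 0) (X Y : ℕ)
    (h : ∀ f : R, Prime f → ∀ α β : ℕ, f ^ α ∣ a → f ^ β ∣ b → ¬ f ^ (β + 1) ∣ b →
      X * α ≤ Y * β) : a ^ X ∣ b ^ Y := by
  rw [UniqueFactorizationMonoid.dvd_iff_emultiplicity_le (pow_ne_zero _ ha)]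
  intro f hf
  have h1 : FiniteMultiplicity f a := FiniteMultiplicity.of_prime_left hf ha
  have h2 : FiniteMultiplicity f b := FiniteMultiplicity.of_prime_left hf hb
  have h3 := h f hf (multiplicity f a) (multiplicity f b)
    (h1.pow_dvd_iff_le_multiplicity.2 le_rfl) (h2.pow_dvd_iff_le_multiplicity.2 le_rfl)
    (fun h => absurd (h2.pow_dvd_iff_le_multiplicity.1 h) (by omega))
  rw [emultiplicity_pow hf, emultiplicity_pow hf, h1.emultiplicity_eq_multiplicity,
    h2.emultiplicity_eq_multiplicity]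
  exact_mod_cast h3

theorem totalDegree_pow' {σ : Type} {k : Type u} [Field k] {B : MvPolynomial σ k} (hB : B ≠ 0)
    (X : ℕ) : (B ^ X).totalDegree = X * B.totalDegree := by
  induction X with
  | zero => simp
  | succ X ih =>
    rw [pow_succ, totalDegree_mul_of_isDomain (pow_ne_zero _ hB) hB, ih]
    ring

/-- the arithmetic of the main case -/
theorem arith1 {n t q v u b φ : ℕ} (hn : 2 ≤ n) (ht : 2 ≤ t) (hv : 1 ≤ v)
    (hu : u ≤ (t - 1) * v) (hφ : φ < t)
    (huφ : u ≤ φ * v) (h : (t * n * v - u) * b ≤ q * n * (φ * v - u)) :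
    (t - 1) * (t * n * v - u) * b ≤ q * n * ((t - 1) * v - u) * φ := by
  have h1 : (t - 1) * (φ * v - u) ≤ φ * ((t - 1) * v - u) := by
    obtain ⟨w, hw⟩ := Nat.exists_eq_add_of_le huφ
    obtain ⟨w', hw'⟩ := Nat.exists_eq_add_of_le hu
    obtain ⟨t', ht'⟩ : ∃ t', t = t' + 1 := ⟨t - 1, by omega⟩
    subst ht'
    simp only [Nat.add_sub_cancel] at *
    rw [hw, hw', Nat.add_sub_cancel_left, Nat.add_sub_cancel_left]
    have h2 : φ ≤ t' := by omega
    have h3 : t' * (u + w) = φ * (u + w') := by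
      rw [← hw, ← hw']
      ring
    nlinarith [Nat.mul_le_mul_right u h2]
  calc (t - 1) * (t * n * v - u) * b = (t - 1) * ((t * n * v - u) * b) := by ring
    _ ≤ (t - 1) * (q * n * (φ * v - u)) := Nat.mul_le_mul_left _ h
    _ = q * n * ((t - 1) * (φ * v - u)) := by ring
    _ ≤ q * n * (φ * ((t - 1) * v - u)) := Nat.mul_le_mul_left _ h1
    _ = q * n * ((t - 1) * v - u) * φ := by ring

end NUM_

open NUM_ in
theorem num_proof (hORD : Stmt_ORD.{u}) (hFIX : Stmt_FIX.{u}) (hOPS : Stmt_OPS.{u})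
    (hARI : Stmt_ARI) : Stmt_NUM.{u} := by
  intro σ _ _ k _ p _ _ _ s S c l m n t d F hcard hn hS hm ht hF hd hVan hcond hmult
  by_contra hnot
  obtain ⟨q, B, hq, hB, hBdeg, hBdvd⟩ := hFIX σ k p s S c l m n t d F hcard hn hm (by omega) hF hd
    hVan hnot
  have hr : d % t < t := Nat.mod_lt _ (by omega)
  have hdt : t * (d / t) + d % t = d := Nat.div_add_mod d t
  -- `n ≤ D`
  have hnD : n ≤ d / t := by
    obtain ⟨i, hi⟩ := hS
    have h1 := (hORD σ k (c i) (l i)).2 F d (t * (m i + n - 1)) hF hd (hVan i hi)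
    rw [Nat.le_div_iff_mul_le (by omega)]
    have h2 : n ≤ m i + n - 1 := by
      have := hm i hi
      omega
    calc n * t = t * n := mul_comm _ _
      _ ≤ t * (m i + n - 1) := Nat.mul_le_mul_left _ h2
      _ ≤ d := h1
  obtain ⟨u, v, hv, huv, hu1, hu2⟩ := hARI n t (d % t) (d / t) hn ht hr hnD hcond
  -- `F` itself is in the admissible range
  have hBF : B ^ t ∣ F ^ q := by
    refine hBdvd t d F (by omega) hF ⟨hVan, hd, ?_⟩
    rw [mul_add, mul_one]
    omega
  have key : B ^ ((t - 1) * (t * n * v - u)) ∣ F ^ (q * n * ((t - 1) * v - u)) := by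
    refine dvd_of_mult hB hF _ _ ?_
    intro f hf b φ hb hφ1 hφ2
    have hφt : φ < t := by
      by_contra hle
      exact hmult f hf ((pow_dvd_pow f (by omega)).trans hφ1)
    rcases Nat.eq_zero_or_pos φ with h0 | hpos
    · -- `f` does not divide `F`
      subst h0
      rw [zero_add, pow_one] at hφ2
      have hb0 : b = 0 := by
        by_contra hb0
        have h1 : f ∣ B := (dvd_pow_self f hb0).trans hb
        have h2 : f ∣ F ^ q := (h1.trans (dvd_pow_self B (by omega))).trans hBF
        exact hφ2 (hf.dvd_of_dvd_pow h2)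
      rw [hb0]
      simp
    · by_cases huφ : u ≤ φ * v
      · exact arith1 hn ht hv huv hφt huφ (hOPS σ k p s S c l m n t d q F B f φ b u v hcard hn hm
          (by omega) hq hF hd hVan hnD hBdvd hf hφ1 hφ2 hpos hφt hb hv huφ hu1)
      · have h1 := hOPS σ k p s S c l m n t d q F B f φ b (φ * v) v hcard hn hm
          (by omega) hq hF hd hVan hnD hBdvd hf hφ1 hφ2 hpos hφt hb hv le_rfl
          (lt_of_le_of_lt (Nat.mul_le_mul_right _ (by omega)) hu1)
        rw [Nat.sub_self, mul_zero] at h1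
        have h2 : 0 < t * n * v - φ * v := by
          have h3 : φ * v < t * v := Nat.mul_lt_mul_of_pos_right hφt (by omega)
          have h4 : t * v ≤ t * n * v := by
            have : t * 1 ≤ t * n := Nat.mul_le_mul_left _ (by omega)
            rw [mul_one] at this
            exact Nat.mul_le_mul_right _ this
          omega
        have hb0 : b = 0 := by
          by_contra hb0
          have : 0 < (t * n * v - φ * v) * b := Nat.mul_pos h2 (Nat.pos_of_ne_zero hb0)
          omega
        rw [hb0]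
        simp
  have hF' : F ^ (q * n * ((t - 1) * v - u)) ≠ 0 := pow_ne_zero _ hF
  have hdeg := totalDegree_le_of_dvd_of_isDomain key hF'
  rw [totalDegree_pow' hB, totalDegree_pow' hF] at hdeg
  have hFd : F.totalDegree ≤ d := hd.totalDegree_le
  have h5 : (t - 1) * (t * n * v - u) * (q * (d / t)) ≤ q * n * ((t - 1) * v - u) * d :=
    (Nat.mul_le_mul_left _ hBdeg).trans (hdeg.trans (Nat.mul_le_mul_left _ hFd))
  rw [hdt] at hu2
  have h6 : q * (n * d * ((t - 1) * v - u)) < q * ((t - 1) * (t * n * v - u) * (d / t)) :=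
    Nat.mul_lt_mul_of_pos_left hu2 (by omega)
  have h7 : (t - 1) * (t * n * v - u) * (q * (d / t))
      = q * ((t - 1) * (t * n * v - u) * (d / t)) := by ring
  have h8 : q * n * ((t - 1) * v - u) * d = q * (n * d * ((t - 1) * v - u)) := by ring
  omega

end Pool.Agent.HHC
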