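import Pool.Agent.HHC.Stmts

/-!
# Squad HHC, module ONE: the theorem for `t = 1`
-/

set_option autoImplicit false

namespace Pool.Agent.HHC

open MvPolynomial Pool.Agent.Lib22a066

universe u

namespace ONE_

section

variable {σ : Type} [Fintype σ] [DecidableEq σ] {k : Type u} [Field k]

/-- a linear form vanishing at the point -/
noncomputable def ll (c : σ → k) (l a : σ) : MvPolynomial σ k := X a - C (c a) * X l

lemma ll_hom (c : σ → k) (l a : σ) : (ll c l a).IsHomogeneous 1 :=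
  (isHomogeneous_X k a).sub (isHomogeneous_C_mul_X (c a) l)

lemma ll_mem (c : σ → k) {l a : σ} (h : a ≠ l) : ll c l a ∈ pid c l :=
  Ideal.subset_span ⟨a, h, rfl⟩

lemma eval_self (c : σ → k) {l a : σ} (h : a ≠ l) : eval (Pi.single a (1 : k)) (ll c l a) = 1 := by
  unfold ll
  rw [map_sub, map_mul, eval_X, eval_X, eval_C, Pi.single_eq_same, Pi.single_eq_of_ne (Ne.symm h),
    mul_zero, sub_zero]

lemma eval_other (c : σ → k) {l a b : σ} (hb : b ≠ l) (hab : a ≠ b) :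
    eval (Pi.single b (1 : k)) (ll c l a) = 0 := by
  unfold ll
  rw [map_sub, map_mul, eval_X, eval_X, eval_C, Pi.single_eq_of_ne hab,
    Pi.single_eq_of_ne (Ne.symm hb), mul_zero, sub_zero]

lemma ll_ne (c : σ → k) {l a : σ} (h : a ≠ l) : ll c l a ≠ 0 := by
  intro h0
  have h1 := eval_self c h
  rw [h0, map_zero] at h1
  exact zero_ne_one h1

lemma cofactor {c : σ → k} {l a : σ} (h : a ≠ l) {f : MvPolynomial σ k} (hf : ¬ IsUnit f)
    (hd : f ∣ ll c l a) : ∃ r : k, ll c l a = f * C r := by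
  obtain ⟨g, hg⟩ := hd
  have hne : f * g ≠ 0 := by
    rw [← hg]
    exact ll_ne c h
  have hf0 : f ≠ 0 := left_ne_zero_of_mul hne
  have hg0 : g ≠ 0 := right_ne_zero_of_mul hne
  have h1 : (ll c l a).totalDegree = 1 := (ll_hom c l a).totalDegree (ll_ne c h)
  rw [hg, totalDegree_mul_of_isDomain hf0 hg0] at h1
  have h2 : f.totalDegree ≠ 0 := by
    intro h3
    have h4 := totalDegree_eq_zero_iff_eq_C.mp h3
    apply hf
    rw [h4]
    have h5 : coeff 0 f ≠ 0 := by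
      intro h6
      rw [h6, map_zero] at h4
      exact hf0 h4
    exact (IsUnit.mk0 _ h5).map C
  have h3 : g.totalDegree = 0 := by omega
  refine ⟨coeff 0 g, ?_⟩
  rw [hg, ← totalDegree_eq_zero_iff_eq_C.mp h3]

lemma not_both {c : σ → k} {l a b : σ} (ha : a ≠ l) (hb : b ≠ l) (hab : a ≠ b)
    {f : MvPolynomial σ k} (hf : ¬ IsUnit f) (h1 : f ∣ ll c l a) (h2 : f ∣ ll c l b) : False := by
  obtain ⟨r, hr⟩ := cofactor ha hf h1
  obtain ⟨r', hr'⟩ := cofactor hb hf h2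
  have h3 : C r' * ll c l a = C r * ll c l b := by
    rw [hr, hr']
    ring
  have h4 := congrArg (eval (Pi.single b (1 : k))) h3
  rw [map_mul, map_mul, eval_C, eval_C, eval_self c hb, eval_other c hb hab, mul_zero,
    mul_one] at h4
  rw [← h4, map_zero, mul_zero] at hr
  exact ll_ne c ha hr

lemma exists_form (c : σ → k) (l : σ) {n : ℕ} (hn : Fintype.card σ = n + 1) (h2 : 2 ≤ n)
    {f : MvPolynomial σ k} (hf : ¬ IsUnit f) :
    ∃ g : MvPolynomial σ k, g ∈ pid c l ∧ g.IsHomogeneous 1 ∧ g ≠ 0 ∧ ¬ f ∣ g := by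
  have hcard : 1 < (Finset.univ.erase l).card := by
    rw [Finset.card_erase_of_mem (Finset.mem_univ l), Finset.card_univ, hn]
    omega
  obtain ⟨a, ha, b, hb, hab⟩ := Finset.one_lt_card.mp hcard
  have ha' : a ≠ l := Finset.ne_of_mem_erase ha
  have hb' : b ≠ l := Finset.ne_of_mem_erase hb
  by_cases h : f ∣ ll c l a
  · exact ⟨ll c l b, ll_mem c hb', ll_hom c l b, ll_ne c hb',
      fun h' => not_both ha' hb' hab hf h h'⟩
  · exact ⟨ll c l a, ll_mem c ha', ll_hom c l a, ll_ne c ha', h⟩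

end

end ONE_

open ONE_ in
theorem one_proof (hORD : Stmt_ORD.{u}) (hFIX : Stmt_FIX.{u}) : Stmt_ONE.{u} := by
  intro σ _ _ k _ p _ _ _ s S c l m n d F hcard hn hS hm hF hV
  by_cases hF0 : F = 0
  · rw [hF0]
    exact Submodule.zero_mem _
  by_contra hlow
  have hlow' : F ∉ low (wsymb S c l m) (d / 1) ^ 1 := by
    rw [Nat.div_one, pow_one]
    exact hlow
  obtain ⟨q, B, hq, hB0, hBdeg, hB⟩ := hFIX σ k p s S c l m n 1 d F hcard hn hm le_rfl hF0 hF hV
    hlow'
  rw [Nat.div_one] at hBdeg hB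
  -- the degree of `F` is positive
  obtain ⟨i0, hi0⟩ := hS
  have hd : m i0 + n - 1 ≤ d := by
    have h1 := hV i0 hi0
    rw [one_mul] at h1
    exact (hORD σ k (c i0) (l i0)).2 F d _ hF0 hF h1
  have hd1 : 1 ≤ d := by
    have := hm i0 hi0
    omega
  have hFdeg : F.totalDegree = d := hF.totalDegree hF0
  have hFu : ¬ IsUnit F := by
    intro h
    rw [isUnit_iff_totalDegree_of_isReduced] at h
    omega
  obtain ⟨f, hfirr, hfF⟩ := WfDvdMonoid.exists_irreducible_factor hFu hF0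
  have hfp : Prime f := hfirr.prime
  -- `F^q` divides `B`
  have hFX : XN S c l m n d 1 d F := ⟨hV, hF, by omega⟩
  have hFB : F ^ q ∣ B := by
    have h1 := hB 1 d F le_rfl hF0 hFX
    rw [pow_one] at h1
    obtain ⟨U, hU⟩ := h1
    have hne : B * U ≠ 0 := by
      rw [← hU]
      exact pow_ne_zero q hF0
    have hU0 : U ≠ 0 := right_ne_zero_of_mul hne
    have h2 : (F ^ q).totalDegree = q * d := by
      rw [Pool.Agent.Lib22a066.totalDegree_pow_eq hF0, hFdeg]
    rw [hU, totalDegree_mul_of_isDomain hB0 hU0] at h2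
    have h3 : U.totalDegree = 0 := by omega
    obtain ⟨r, hr⟩ : ∃ r : k, U = C r := ⟨_, totalDegree_eq_zero_iff_eq_C.mp h3⟩
    have h5 : r ≠ 0 := by
      intro h6
      rw [h6, map_zero] at hr
      exact hU0 hr
    refine ⟨C r⁻¹, ?_⟩
    rw [hU, mul_assoc, hr, ← C_mul, mul_inv_cancel₀ h5, C_1, mul_one]
  -- the auxiliary forms
  have hex : ∀ i, ∃ g : MvPolynomial σ k, g ∈ pid (c i) (l i) ∧ g.IsHomogeneous 1 ∧ g ≠ 0 ∧
      ¬ f ∣ g := fun i => exists_form (c i) (l i) hcard hn hfirr.not_isUnit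
  choose g hg1 hg2 hg3 hg4 using hex
  set C0 : MvPolynomial σ k := ∏ i ∈ S, g i ^ (m i + n - 1) with hC0
  set e0 : ℕ := ∑ i ∈ S, 1 * (m i + n - 1) with he0
  have hC0hom : C0.IsHomogeneous e0 :=
    IsHomogeneous.prod S (fun i => g i ^ (m i + n - 1)) (fun i => 1 * (m i + n - 1))
      (fun i _ => (hg2 i).pow (m i + n - 1))
  have hC0ne : C0 ≠ 0 := Finset.prod_ne_zero_iff.mpr (fun i _ => pow_ne_zero _ (hg3 i))
  have hC0mem : ∀ i ∈ S, C0 ∈ pid (c i) (l i) ^ (m i + n - 1) := fun i hi =>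
    Ideal.mem_of_dvd _ (Finset.dvd_prod_of_mem (fun i => g i ^ (m i + n - 1)) hi)
      (Ideal.pow_mem_pow (hg1 i) _)
  have hGX : XN S c l m n d (e0 + 1) (d * e0 + e0) (F ^ e0 * C0) := by
    refine ⟨?_, (hF.pow e0).mul hC0hom, ?_⟩
    · intro i hi
      have h1 := hV i hi
      rw [one_mul] at h1
      have h2 : F ^ e0 ∈ pid (c i) (l i) ^ (e0 * (m i + n - 1)) := by
        have := Ideal.pow_mem_pow h1 e0
        rwa [← pow_mul, mul_comm] at this
      have h3 := Ideal.mul_mem_mul h2 (hC0mem i hi)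
      rw [← pow_add] at h3
      have h4 : (e0 + 1) * (m i + n - 1) = e0 * (m i + n - 1) + (m i + n - 1) := by ring
      rw [h4]
      exact h3
    · nlinarith
  have hGne : F ^ e0 * C0 ≠ 0 := mul_ne_zero (pow_ne_zero _ hF0) hC0ne
  have h1 := hB (e0 + 1) _ _ (by omega) hGne hGX
  have h2 : (F ^ (e0 + 1)) ^ q ∣ (F ^ e0 * C0) ^ q := by
    refine dvd_trans ?_ h1
    rw [← pow_mul, mul_comm, pow_mul]
    exact pow_dvd_pow_of_dvd hFB _
  have h3 : F ^ (e0 + 1) ∣ F ^ e0 * C0 :=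
    (UniqueFactorizationMonoid.pow_dvd_pow_iff_dvd (by omega)).mp h2
  rw [pow_succ] at h3
  have h4 : F ∣ C0 := (mul_dvd_mul_iff_left (pow_ne_zero _ hF0)).mp h3
  obtain ⟨i, hi, hdvd⟩ := hfp.exists_mem_finset_dvd (hfF.trans h4)
  exact hg4 i (hfp.dvd_of_dvd_pow hdvd)

end Pool.Agent.HHC
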