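import Pool.Agent.HHC.Stmts

set_option autoImplicit false

namespace Pool.Agent.HHC

open MvPolynomial Pool.Agent.Lib22a066

universe u

namespace OPS_

/-- The numeric core, over the integers: if for arbitrarily large `A` one has the inequality with
an error bounded independently of `A`, the limit inequality holds. -/
lemma lim_ineq {X K : ℤ} (h : ∀ A₀ : ℕ, ∃ A : ℕ, A₀ ≤ A ∧ (A : ℤ) * X ≤ K) : X ≤ 0 := by
  by_contra hX
  push Not at hX
  obtain ⟨A, hA, hle⟩ := h (K.toNat + 1)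
  have h1 : (K.toNat : ℤ) + 1 ≤ A := by exact_mod_cast hA
  have h2 : K ≤ K.toNat := Int.self_le_toNat K
  nlinarith

/-- Degree bookkeeping. -/
lemma deg_ineq {t d n u v A c δ s : ℕ} (hn : 1 ≤ n) (ht : 1 ≤ t) (hv : 1 ≤ v)
    (hD : n ≤ d / t)
    (hs : s * v ≤ A * u) (hu : u * (d / t + 1 - n) < (t - d % t) * n * v)
    (hA : v * (n * (c * δ) + (n - 1) * (d / t + 1)) < A)
    (hce : (s + n - 1) / n < A * t) :
    A * d + c * δ - s < (A * t - (s + n - 1) / n) * (d / t + 1) := by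
  set ce := (s + n - 1) / n with hcedef
  have hce1 : n * ce ≤ s + n - 1 := Nat.mul_div_le _ _
  have hd := (Nat.div_add_mod d t)
  have hr : d % t < t := Nat.mod_lt _ ht
  set D := d / t with hDdef
  set r := d % t with hrdef
  obtain ⟨D', hD'⟩ : ∃ D', D + 1 = n + D' := ⟨D + 1 - n, by omega⟩
  obtain ⟨r', hr'⟩ : ∃ r', t = r + r' := ⟨t - r, by omega⟩
  obtain ⟨n', hn'⟩ : ∃ n', n = n' + 1 := ⟨n - 1, by omega⟩
  have e1 : D + 1 - n = D' := by omega
  have e2 : t - r = r' := by omega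
  have e3 : n - 1 = n' := by omega
  rw [e1, e2] at hu
  rw [e3] at hA
  obtain ⟨W, hW⟩ : ∃ W, A * t = ce + W := ⟨A * t - ce, by omega⟩
  have e4 : A * t - ce = W := by omega
  rw [e4]
  have hce2 : n * ce ≤ s + n' := by omega
  -- goal : A d + c δ < W (D+1) + s
  have hW1 : 0 < W * (D + 1) := Nat.mul_pos (by omega) (by omega)
  suffices h : A * d + c * δ < W * (D + 1) + s by omega
  -- multiply by n v
  have hnv : 0 < n * v := Nat.mul_pos (by omega) hv
  zify at *
  have hsv : (s : ℤ) * v * D' ≤ A * u * D' := by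
    have : (0 : ℤ) ≤ D' := Int.natCast_nonneg _
    nlinarith
  have hA0 : (0 : ℤ) ≤ A := by positivity
  have hAu : (A : ℤ) * (u * D') ≤ A * (r' * n * v - 1) := by
    apply mul_le_mul_of_nonneg_left _ hA0
    linarith
  have hWe : (W : ℤ) = A * t - ce := by linarith
  have hde : (d : ℤ) = t * D + r := by linarith
  by_contra hcon
  push Not at hcon
  -- W (D+1) + s ≤ A d + c δ
  have h1 : (n : ℤ) * v * (W * (D + 1) + s) ≤ n * v * (A * d + c * δ) :=
    mul_le_mul_of_nonneg_left hcon hnv.le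
  rw [hWe, hde] at h1
  have hD1 : (D : ℤ) + 1 = n + D' := by linarith
  have h2 : (v : ℤ) * (D + 1) * (n * ce) ≤ v * (D + 1) * (s + n') := by
    apply mul_le_mul_of_nonneg_left hce2
    positivity
  have ht' : (t : ℤ) = r + r' := by linarith
  -- expand
  have h3 : (n : ℤ) * v * ((A * t - ce) * (D + 1) + s) =
      n * v * A * t * (D + 1) - v * (D + 1) * (n * ce) + n * v * s := by ring
  have h4 : (n : ℤ) * v * (A * (t * D + r) + c * δ) =
      n * v * A * t * D + n * v * A * r + n * v * (c * δ) := by ring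
  rw [h3, h4] at h1
  have h5 : (n : ℤ) * v * A * t * (D + 1) = n * v * A * t * D + n * v * A * r + n * v * A * r' := by
    rw [ht']; ring
  have h6 : (v : ℤ) * (D + 1) * (s + n') = s * v * D' + n * v * s + v * (n' * (D + 1)) := by
    rw [hD1]; ring
  have h7 : (v : ℤ) * (n * (c * δ) + n' * (D + 1)) = n * v * (c * δ) + v * (n' * (D + 1)) := by ring
  have h8 : (A : ℤ) * (r' * n * v - 1) = n * v * A * r' - A := by ring
  nlinarith

/-- The final inequality with error term. -/
lemma fin_ineq {t n u v A c φ s b q P : ℕ} (hn : 1 ≤ n) (hv : 1 ≤ v)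
    (hs : s * v ≤ A * u) (hs' : A * u < s * v + v) (hP : P = φ * A + c) (hsP : s ≤ P)
    (hc : c < φ) (hce : (s + n - 1) / n ≤ A * t)
    (hle : b * (A * t - (s + n - 1) / n) ≤ (P - s) * q) :
    (A : ℤ) * (((t : ℤ) * n * v - u) * b - q * n * (φ * v - u)) ≤
      (v : ℤ) * (n - 1) * b + q * n * φ * v := by
  set ce := (s + n - 1) / n with hcedef
  have hce1 : n * ce ≤ s + n - 1 := Nat.mul_div_le _ _
  obtain ⟨n', hn'⟩ : ∃ n', n = n' + 1 := ⟨n - 1, by omega⟩
  have hce2 : n * ce ≤ s + n' := by omega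
  obtain ⟨W, hW⟩ : ∃ W, A * t = ce + W := ⟨A * t - ce, by omega⟩
  have e4 : A * t - ce = W := by omega
  rw [e4] at hle
  obtain ⟨R, hR⟩ : ∃ R, P = s + R := ⟨P - s, by omega⟩
  have e5 : P - s = R := by omega
  rw [e5] at hle
  have hc' : c + 1 ≤ φ := hc
  zify at *
  have hn1 : (n : ℤ) - 1 = n' := by linarith
  have hWe : (W : ℤ) = A * t - ce := by linarith
  have hRe : (R : ℤ) = φ * A + c - s := by linarith
  have hnv : (0 : ℤ) ≤ n * v := by positivity
  have h1 : (n : ℤ) * v * (b * W) ≤ n * v * (R * q) := mul_le_mul_of_nonneg_left hle hnv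
  rw [hWe, hRe] at h1
  have h2 : (v : ℤ) * b * (n * ce) ≤ v * b * (s + n') := by
    apply mul_le_mul_of_nonneg_left hce2
    positivity
  have h3 : (b : ℤ) * (s * v) ≤ b * (A * u) := mul_le_mul_of_nonneg_left hs (by positivity)
  have h4 : (n : ℤ) * q * (A * u) ≤ n * q * (s * v + v) :=
    mul_le_mul_of_nonneg_left hs'.le (by positivity)
  have h5 : (n : ℤ) * q * v * (c + 1) ≤ n * q * v * φ :=
    mul_le_mul_of_nonneg_left hc' (by positivity)
  rw [hn1]
  nlinarith

lemma pow_le_of_dvd {R : Type*} [CommRing R] [IsDomain R] {f V : R} (hf : Prime f)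
    (hV : ¬ f ∣ V) {x y : ℕ} (h : f ^ x ∣ f ^ y * V) : x ≤ y := by
  by_contra hlt
  push Not at hlt
  have h1 : f ^ (y + 1) ∣ f ^ y * V := (pow_dvd_pow f hlt).trans h
  rw [pow_succ] at h1
  exact hV ((mul_dvd_mul_iff_left (pow_ne_zero y hf.ne_zero)).mp h1)

end OPS_

theorem ops_proof (hHOM : Stmt_HOM.{u}) (hNPD : Stmt_NPD.{u}) (hBIN : Stmt_BIN)
    (hHAS : Stmt_HAS.{u}) : Stmt_OPS.{u} := by
  intro σ _ _ k _ p hp _ _ s S c l m n t d q F B f φ b u v hcard hn hm ht hq hF0 hF hVan hnD hB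
    hf hfF hfF' hφ hφt hfB hv huφ hu
  obtain ⟨U, hU⟩ := hfF
  have hfU : ¬ f ∣ U := by
    rintro ⟨W, rfl⟩
    apply hfF'
    exact ⟨W, by rw [hU]; ring⟩
  have hf0 : f ≠ 0 := hf.ne_zero
  -- `f` is a form
  have hfac : f * (f ^ (φ - 1) * U) = F := by
    rw [hU, ← mul_assoc, ← pow_succ', Nat.sub_add_cancel hφ]
  obtain ⟨δ, _, _, hfδ, _⟩ := hHOM σ k f (f ^ (φ - 1) * U) d (by rw [hfac]; exact hF0)
    (by rw [hfac]; exact hF)
  obtain ⟨i, hi⟩ := hNPD σ k p f hf.irreducible
  have hp1 : 1 < p := hp.out.one_lt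
  -- the key estimate
  have key : ∀ A₀ : ℕ, ∃ A : ℕ, A₀ ≤ A ∧
      (A : ℤ) * (((t : ℤ) * n * v - u) * b - q * n * (φ * v - u)) ≤
        (v : ℤ) * (n - 1) * b + q * n * φ * v := by
    intro A₀
    set K := v * (n * (φ * δ) + (n - 1) * (d / t + 1)) with hK
    obtain ⟨N', hN'⟩ : ∃ N', φ * (A₀ + K + 1) + 1 ≤ p ^ N' :=
      ⟨φ * (A₀ + K + 1) + 1, (Nat.lt_pow_self hp1).le⟩
    set P := p ^ N' - 1 with hPdef
    have hP1 : φ * (A₀ + K + 1) ≤ P := by omega
    set A := P / φ with hAdef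
    set c₀ := P % φ with hc₀def
    have hPA : P = φ * A + c₀ := (Nat.div_add_mod P φ).symm
    have hc₀ : c₀ < φ := Nat.mod_lt _ hφ
    have hA1 : A₀ + K + 1 ≤ A := by
      rw [hAdef, Nat.le_div_iff_mul_le hφ, mul_comm]
      exact hP1
    refine ⟨A, by omega, ?_⟩
    set r := A * u / v with hrdef
    have hr1 : r * v ≤ A * u := Nat.div_mul_le_self _ _
    have hr2 : A * u < r * v + v := by
      have := Nat.lt_div_mul_add (a := A * u) (b := v) hv
      exact this
    have hrA : r ≤ φ * A := by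
      have h1 : r * v ≤ φ * A * v := by
        calc r * v ≤ A * u := hr1
          _ ≤ A * (φ * v) := Nat.mul_le_mul_left _ huφ
          _ = φ * A * v := by ring
      exact Nat.le_of_mul_le_mul_right h1 hv
    have hrP : r ≤ P := by omega
    set ce := (r + n - 1) / n with hcedef
    have hce1 : ce ≤ r := by
      rw [hcedef, Nat.div_le_iff_le_mul_add_pred (by omega)]
      have : r ≤ n * r := Nat.le_mul_of_pos_left _ (by omega)
      omega
    have hcen : r ≤ ce * n := by
      have h1 := Nat.lt_div_mul_add (a := r + n - 1) (b := n) (by omega)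
      rw [← hcedef] at h1
      omega
    have hceA : ce < A * t := by
      have h1 : φ * A < A * t := by
        rw [mul_comm]
        exact Nat.mul_lt_mul_of_pos_left hφt (by omega)
      omega
    have hKc : v * (n * (c₀ * δ) + (n - 1) * (d / t + 1)) ≤ K := by
      rw [hK]
      gcongr
    -- the operator
    obtain ⟨D, hD1, hD2, hD3⟩ := hHAS σ k i r
    have hfUA : ¬ f ∣ U ^ A := fun h => hfU (hf.dvd_of_dvd_pow h)
    have hchoose : ((P.choose r : ℕ) : k) ≠ 0 := by
      rw [Ne, CharP.cast_eq_zero_iff k p]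
      exact hBIN p hp.out N' r hrP
    obtain ⟨hG1, hG2⟩ := hD3 f (U ^ A) P hf hfUA hi hrP hchoose
    have hG0 : f ^ P * U ^ A = F ^ A * f ^ c₀ := by
      rw [hU, mul_pow, ← pow_mul, hPA, pow_add]
      ring
    set G := D (f ^ P * U ^ A) with hGdef
    have hGne : G ≠ 0 := by
      intro h
      rw [h] at hG2
      exact hG2 (dvd_zero _)
    have hGhom : G.IsHomogeneous (A * d + c₀ * δ - r) := by
      rw [hGdef]
      refine hD2 _ _ ?_
      rw [hG0]
      have := (hF.pow A).mul (hfδ.pow c₀)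
      rwa [mul_comm d A, mul_comm δ c₀] at this
    have hGvan : Van S c l m n (A * t - ce) G := by
      intro j hj
      have h1 := Ideal.pow_mem_pow (hVan j hj) A
      rw [← pow_mul] at h1
      have h2 : f ^ P * U ^ A ∈ pid (c j) (l j) ^ (t * (m j + n - 1) * A) := by
        rw [hG0]
        exact Ideal.mul_mem_right _ _ h1
      have h3 := hD1 (c j) (l j) _ _ h2
      refine Ideal.pow_le_pow_right ?_ h3
      have h4 := hm j hj
      have h5 : r ≤ ce * (m j + n - 1) :=
        hcen.trans (Nat.mul_le_mul_left _ (by omega))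
      rw [Nat.sub_mul]
      have h6 : t * (m j + n - 1) * A = A * t * (m j + n - 1) := by ring
      omega
    have hXN : XN S c l m n (d / t) (A * t - ce) (A * d + c₀ * δ - r) G := by
      refine ⟨hGvan, hGhom, ?_⟩
      exact OPS_.deg_ineq (by omega) ht hv hnD hr1 hu (by omega) hceA
    have hdvd := hB _ _ G (by omega) hGne hXN
    obtain ⟨V, hV⟩ := hG1
    have hfV : ¬ f ∣ V := by
      rintro ⟨W, rfl⟩
      apply hG2
      exact ⟨W, by rw [hV]; ring⟩
    have hfVq : ¬ f ∣ V ^ q := fun h => hfV (hf.dvd_of_dvd_pow h)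
    have h1 : f ^ (b * (A * t - ce)) ∣ f ^ ((P - r) * q) * V ^ q := by
      have h2 : (f ^ b) ^ (A * t - ce) ∣ G ^ q := (pow_dvd_pow_of_dvd hfB _).trans hdvd
      rw [← pow_mul, hV, mul_pow, ← pow_mul] at h2
      exact h2
    have h2 := OPS_.pow_le_of_dvd hf hfVq h1
    exact OPS_.fin_ineq (by omega) hv hr1 hr2 hPA hrP hc₀ hceA.le h2
  have hlim := OPS_.lim_ineq key
  have hu2 : u ≤ t * n * v := by
    calc u ≤ φ * v := huφ
      _ ≤ t * v := Nat.mul_le_mul_right _ hφt.le
      _ = t * 1 * v := by ring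
      _ ≤ t * n * v := by gcongr; omega
  zify [huφ, hu2]
  linarith

end Pool.Agent.HHC
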