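import Pool.Agent.HHC.Stmts

/-!
# Squad HHC (MP_22a066_ag): module STP
-/

set_option autoImplicit false

namespace Pool.Agent.HHC

open MvPolynomial Pool.Agent.Lib22a066

universe u

theorem stp_proof : Stmt_STP.{u} := by
  classical
  intro σ _ _ k _ p hp _ _ L t d e a F hF0 hF hat1 hat2 hq hT
  obtain ⟨δ, hδ⟩ := Nat.exists_eq_add_of_le hat1
  have hδt : δ < t := by omega
  have h1 : F ^ a ∈ Ideal.map (iterateFrobenius (MvPolynomial σ k) p e) L :=
    (mem_map_frob_iff p e _ _).mpr hT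
  have h2 := Ideal.pow_mem_pow h1 t
  rw [← pow_mul, hδ, ← Ideal.map_pow, pow_add, mem_map_frob_iff] at h2
  have hδd : (F ^ δ).totalDegree < p ^ e := by
    have h3 : (F ^ δ).totalDegree ≤ d * δ := (hF.pow δ).totalDegree_le
    have h4 : d * δ ≤ d * (t - 1) := Nat.mul_le_mul_left _ (by omega)
    rw [mul_comm (t - 1) d] at hq
    omega
  obtain ⟨γ, hγ⟩ := exists_coeff_ne_zero (pow_ne_zero δ hF0)
  have h3 := h2 γ
  have h4 := T_pow_mul p e γ F (F ^ δ)
  rw [h4, T_of_totalDegree_lt p e hδd] at h3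
  set z := root p e (coeff γ (F ^ δ)) with hz
  have hz0 : z ≠ 0 := by
    rw [hz, Ne, map_eq_zero_iff _ (root p e).injective]
    exact hγ
  have h5 : F = F * C z * C z⁻¹ := by
    rw [mul_assoc, ← C_mul, mul_inv_cancel₀ hz0, C_1, mul_one]
  rw [h5]
  exact Ideal.mul_mem_right _ _ h3

end Pool.Agent.HHC
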