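import Pool.Agent.HHC.Stmts

/-!
Squad HHC, module THA: `Θ` is linear over the polynomial ring in the admissible range of degrees.
-/

set_option autoImplicit false

namespace Pool.Agent.HHC

open MvPolynomial Pool.Agent.Lib22a066

universe u

namespace THA_

section

variable {σ : Type} [Fintype σ] [DecidableEq σ] {k : Type u} [Field k]
  (p : ℕ) [hp : Fact p.Prime] [CharP k p] [PerfectRing k p] (e : ℕ)

lemma coeff_Th (lam : MvPolynomial σ k →ₗ[k] k) (G : MvPolynomial σ k) (γ : σ →₀ ℕ) :
    coeff γ (Th p e lam G) = (lam (T p e γ G)) ^ (p ^ e) := by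
  have hq : 0 < p ^ e := pow_pos hp.out.pos e
  unfold Th
  rw [coeff_sum]
  by_cases hγ : γ ∈ Box σ (p ^ e)
  · rw [Finset.sum_eq_single γ]
    · rw [coeff_monomial, if_pos rfl]
    · intro β _ hne
      rw [coeff_monomial, if_neg hne]
    · intro hcon
      exact absurd hγ hcon
  · have h1 : T p e γ G = 0 := by
      rw [mem_Box hq] at hγ
      push Not at hγ
      obtain ⟨i, hi⟩ := hγ
      exact T_eq_zero_of_not_lt p e hi G
    rw [h1, map_zero, zero_pow hq.ne']
    apply Finset.sum_eq_zero
    intro β hβ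
    rw [coeff_monomial, if_neg]
    rintro rfl
    exact hγ hβ

/-- the coordinates outside `low J D` -/
lemma deg_of_notMem {J : Ideal (MvPolynomial σ k)} {G : MvPolynomial σ k} {D g : ℕ}
    (hG : G.IsHomogeneous g) (hg : g < p ^ e * (D + 1)) (hJ : ∀ β, T p e β G ∈ J)
    (β : σ →₀ ℕ) (h : T p e β G ∉ low J D) : p ^ e * D + β.degree = g := by
  have hq : 0 < p ^ e := pow_pos hp.out.pos e
  have h0 : T p e β G ≠ 0 := by
    intro h1
    rw [h1] at h
    exact h (Ideal.zero_mem _)
  obtain ⟨γ, hγ⟩ := exists_coeff_ne_zero h0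
  have h1 := T_isHomogeneous p e hG hγ
  have h2 : (T p e β G).IsHomogeneous γ.degree := by
    intro γ' hγ'
    have h3 := T_isHomogeneous p e hG hγ'
    have h4 : p ^ e * γ'.degree = p ^ e * γ.degree := by omega
    have h5 := Nat.eq_of_mul_eq_mul_left hq h4
    rw [← h5, Finsupp.degree_eq_weight_one]
    rfl
  have h3 : γ.degree ≤ D := by
    by_contra hlt
    push Not at hlt
    have : p ^ e * (D + 1) ≤ p ^ e * γ.degree := Nat.mul_le_mul_left _ hlt
    omega
  have h4 : γ.degree = D := by
    by_contra hne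
    exact h (mem_low (hJ β) (lt_of_le_of_ne h3 hne) h2)
  rw [h4] at h1
  exact h1

end

end THA_

theorem tha_proof : Stmt_THA.{u} := by
  intro σ _ _ k _ p hp _ _ s S c l m n D e lam hn hn2 hm hlam G H g h hXN hH hgh
  obtain ⟨hVan, hG, hg⟩ := hXN
  have hq : 0 < p ^ e := pow_pos hp.out.pos e
  have hGJ : ∀ β, T p e β G ∈ wsymb S c l m := by
    intro β
    unfold wsymb
    rw [Ideal.mem_iInf]
    intro i
    rw [Ideal.mem_iInf]
    intro hi
    exact T_mem_pid p e (c i) (l i) n (m i) hn (by omega) (hm i hi) (hVan i hi) β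
  ext γ
  rw [THA_.coeff_Th]
  have h1 : lam (T p e γ (H * G)) =
      ∑ β ∈ Box σ (p ^ e), root p e (coeff γ (monomial β 1 * H)) * lam (T p e β G) := by
    conv_lhs => rw [← sum_T p e G]
    rw [Finset.mul_sum, map_sum, map_sum]
    refine Finset.sum_congr rfl fun β _ => ?_
    have h2 : H * (monomial β 1 * (T p e β G) ^ (p ^ e)) =
        (T p e β G) ^ (p ^ e) * (monomial β 1 * H) := by ring
    rw [h2, T_pow_mul]
    by_cases hβ : T p e β G ∈ low (wsymb S c l m) D
    · rw [hlam _ hβ, mul_zero]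
      exact hlam _ (Ideal.mul_mem_right _ _ hβ)
    · have h3 := THA_.deg_of_notMem p e hG hg hGJ β hβ
      have h4 : ((monomial β (1 : k)) * H).IsHomogeneous (β.degree + h) :=
        (isHomogeneous_monomial _ rfl).mul hH
      have h5 : ((monomial β (1 : k)) * H).totalDegree < p ^ e := by
        have h6 := h4.totalDegree_le
        rw [mul_add, mul_one] at hgh
        omega
      rw [T_of_totalDegree_lt p e h5, mul_comm, ← smul_eq_C_mul, map_smul, smul_eq_mul]
  rw [h1, sum_pow_char_pow]
  have h2 : H * Th p e lam G =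
      ∑ β ∈ Box σ (p ^ e), C ((lam (T p e β G)) ^ (p ^ e)) * (monomial β 1 * H) := by
    unfold Th
    rw [Finset.mul_sum]
    refine Finset.sum_congr rfl fun β _ => ?_
    have h3 : (monomial β ((lam (T p e β G)) ^ (p ^ e)) : MvPolynomial σ k) =
        C ((lam (T p e β G)) ^ (p ^ e)) * monomial β 1 := by
      rw [C_mul_monomial, mul_one]
    rw [h3]
    ring
  rw [h2, coeff_sum]
  refine Finset.sum_congr rfl fun β _ => ?_
  rw [mul_pow, root_pow, coeff_C_mul, mul_comm]

end Pool.Agent.HHC
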