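import Pool.Agent.HHC.Stmts

/-!
# Squad HHC, module THB: `Θ` and Frobenius
-/

set_option autoImplicit false

namespace Pool.Agent.HHC

open MvPolynomial Pool.Agent.Lib22a066

universe u

namespace THB_

variable {σ : Type}

lemma rem_mul (q q' : ℕ) (α : σ →₀ ℕ) : rem (q * q') (q' • α) = q' • rem q α := by
  ext i
  simp only [rem_apply, Finsupp.smul_apply, smul_eq_mul]
  rw [mul_comm q q', Nat.mul_mod_mul_left]

lemma quo_mul (q q' : ℕ) (hq' : 0 < q') (α : σ →₀ ℕ) : quo (q * q') (q' • α) = quo q α := by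
  ext i
  simp only [quo_apply, Finsupp.smul_apply, smul_eq_mul]
  rw [mul_comm q q', Nat.mul_div_mul_left _ _ hq']

lemma rem_smul (q' : ℕ) (α : σ →₀ ℕ) : rem q' (q' • α) = 0 := by
  ext i
  simp

lemma quo_smul (q' : ℕ) (hq' : 0 < q') (α : σ →₀ ℕ) : quo q' (q' • α) = α := by
  ext i
  simp only [quo_apply, Finsupp.smul_apply, smul_eq_mul]
  exact Nat.mul_div_cancel_left _ hq'

lemma T_pow [DecidableEq σ] {k : Type u} [Field k] (p : ℕ) [hp : Fact p.Prime]
    [CharP k p] [PerfectRing k p] (e e' : ℕ) (γ : σ →₀ ℕ) (G : MvPolynomial σ k) :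
    T p (e + e') γ (G ^ (p ^ e')) =
      if rem (p ^ e') γ = 0 then T p e (quo (p ^ e') γ) G else 0 := by
  have hq' : 0 < p ^ e' := pow_pos hp.out.pos e'
  induction G using MvPolynomial.induction_on' with
  | monomial α a =>
    rw [monomial_pow, T_monomial, T_monomial]
    have e0 : p ^ (e + e') = p ^ e * p ^ e' := pow_add p e e'
    have hroot : root p (e + e') (a ^ (p ^ e')) = root p e a := by
      have h1 : a ^ (p ^ e') = (root p e a) ^ (p ^ (e + e')) := by
        rw [e0, pow_mul, root_pow]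
      rw [h1, pow_root]
    rw [hroot]
    have e1 : rem (p ^ (e + e')) (p ^ e' • α) = p ^ e' • rem (p ^ e) α := by
      rw [e0, rem_mul]
    have e2 : quo (p ^ (e + e')) (p ^ e' • α) = quo (p ^ e) α := by
      rw [e0, quo_mul _ _ hq']
    rw [e1, e2]
    by_cases h : p ^ e' • rem (p ^ e) α = γ
    · rw [if_pos h, ← h, rem_smul, quo_smul _ hq', if_pos rfl, if_pos rfl]
    · rw [if_neg h]
      split_ifs with h1 h2
      · exfalso
        apply h
        rw [h2]
        have := quo_add_rem (p ^ e') γ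
        rwa [h1, add_zero] at this
      · rfl
      · rfl
  | add G1 G2 h1 h2 =>
    rw [add_pow_char_pow, map_add, h1, h2]
    split_ifs
    · rw [map_add]
    · rw [add_zero]

end THB_

open THB_ in
theorem thb_proof : Stmt_THB.{u} := by
  intro σ _ _ k _ p hp _ _ e e' lam G
  classical
  have hq' : 0 < p ^ e' := pow_pos hp.out.pos e'
  have hq : 0 < p ^ e := pow_pos hp.out.pos e
  have hQ : 0 < p ^ (e + e') := pow_pos hp.out.pos (e + e')
  have e0 : p ^ (e + e') = p ^ e * p ^ e' := pow_add p e e'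
  unfold Th
  rw [sum_pow_char_pow]
  have hinj : Set.InjOn (fun β : σ →₀ ℕ => p ^ e' • β) (Box σ (p ^ e) : Set (σ →₀ ℕ)) := by
    intro a _ b _ hab
    have := congrArg (quo (p ^ e')) hab
    simp only [quo_smul _ hq'] at this
    exact this
  have hR : ∑ β ∈ Box σ (p ^ e), (monomial β (lam (T p e β G) ^ p ^ e)) ^ p ^ e' =
      ∑ γ ∈ (Box σ (p ^ e)).image (fun β : σ →₀ ℕ => p ^ e' • β),
        monomial γ (lam (T p (e + e') γ (G ^ p ^ e')) ^ p ^ (e + e')) := by
    rw [Finset.sum_image hinj]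
    refine Finset.sum_congr rfl fun β _ => ?_
    rw [T_pow, rem_smul, if_pos rfl, quo_smul _ hq', monomial_pow, ← pow_mul, ← e0]
  rw [hR]
  symm
  refine Finset.sum_subset ?_ ?_
  · intro γ hγ
    rw [Finset.mem_image] at hγ
    obtain ⟨β, hβ, rfl⟩ := hγ
    rw [mem_Box hq] at hβ
    rw [mem_Box hQ]
    intro i
    rw [Finsupp.smul_apply, smul_eq_mul, e0, mul_comm]
    exact Nat.mul_lt_mul_of_pos_right (hβ i) hq'
  · intro γ hγ hγ'
    rw [T_pow]
    have h0 : ¬ rem (p ^ e') γ = 0 := by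
      intro h
      apply hγ'
      rw [Finset.mem_image]
      refine ⟨quo (p ^ e') γ, ?_, ?_⟩
      · rw [mem_Box hQ] at hγ
        rw [mem_Box hq]
        intro i
        rw [quo_apply, Nat.div_lt_iff_lt_mul hq', ← e0]
        exact hγ i
      · have := quo_add_rem (p ^ e') γ
        rwa [h, add_zero] at this
    rw [if_neg h0, map_zero, zero_pow hQ.ne', monomial_zero]

end Pool.Agent.HHC
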