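import Pool.Agent.HHC.Stmts

/-!
Squad HHC, module THC: degree of `Θ G`.
-/

set_option autoImplicit false

namespace Pool.Agent.HHC

open MvPolynomial Pool.Agent.Lib22a066

universe u

namespace THC_

section

variable {σ : Type} [Fintype σ] [DecidableEq σ] {k : Type u} [Field k]
  (p : ℕ) [hp : Fact p.Prime] [CharP k p] [PerfectRing k p] (e : ℕ)

lemma coeff_Th_ne (lam : MvPolynomial σ k →ₗ[k] k) (G : MvPolynomial σ k) (γ : σ →₀ ℕ)
    (h : coeff γ (Th p e lam G) ≠ 0) : lam (T p e γ G) ≠ 0 := by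
  have hq : 0 < p ^ e := pow_pos hp.out.pos e
  intro h0
  apply h
  unfold Th
  rw [coeff_sum]
  apply Finset.sum_eq_zero
  intro β hβ
  rw [coeff_monomial]
  split_ifs with hb
  · rw [hb, h0, zero_pow hq.ne']
  · rfl

omit [Fintype σ] in
/-- the coordinates outside `low J D` -/
lemma deg_of_notMem {J : Ideal (MvPolynomial σ k)} {G : MvPolynomial σ k} {D g : ℕ}
    (hG : G.IsHomogeneous g) (hg : g < p ^ e * (D + 1)) (hJ : ∀ β, T p e β G ∈ J)
    (β : σ →₀ ℕ) (h : T p e β G ∉ low J D) : p ^ e * D + β.degree = g := by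
  have hq : 0 < p ^ e := pow_pos hp.out.pos e
  have h0 : T p e β G ≠ 0 := by
    intro h1
    rw [h1] at h
    exact h (Ideal.zero_mem _)
  obtain ⟨γ, hγ⟩ := exists_coeff_ne_zero h0
  have h1 := T_isHomogeneous p e hG hγ
  have h2 : (T p e β G).IsHomogeneous γ.degree := by
    intro γ' hγ'
    have h3 := T_isHomogeneous p e hG hγ'
    have h4 : p ^ e * γ'.degree = p ^ e * γ.degree := by omega
    have h5 := Nat.eq_of_mul_eq_mul_left hq h4
    rw [← h5, Finsupp.degree_eq_weight_one]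
    rfl
  have h3 : γ.degree ≤ D := by
    by_contra hlt
    push Not at hlt
    have : p ^ e * (D + 1) ≤ p ^ e * γ.degree := Nat.mul_le_mul_left _ hlt
    omega
  have h4 : γ.degree = D := by
    by_contra hne
    exact h (mem_low (hJ β) (lt_of_le_of_ne h3 hne) h2)
  rw [h4] at h1
  exact h1

end

end THC_

theorem thc_proof : Stmt_THC.{u} := by
  intro σ _ _ k _ p hp _ _ s S c l m n D e lam hn hn2 hm hlam G g hXN hne
  obtain ⟨hVan, hG, hg⟩ := hXN
  have hGJ : ∀ β, T p e β G ∈ wsymb S c l m := by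
    intro β
    unfold wsymb
    rw [Ideal.mem_iInf]
    intro i
    rw [Ideal.mem_iInf]
    intro hi
    exact T_mem_pid p e (c i) (l i) n (m i) hn (by omega) (hm i hi) (hVan i hi) β
  have key : ∀ γ, coeff γ (Th p e lam G) ≠ 0 → p ^ e * D + γ.degree = g := by
    intro γ hγ
    have h1 := THC_.coeff_Th_ne p e lam G γ hγ
    apply THC_.deg_of_notMem p e hG hg hGJ γ
    intro hlow
    exact h1 (hlam _ hlow)
  obtain ⟨γ0, hγ0⟩ := exists_coeff_ne_zero hne
  have h0 := key γ0 hγ0
  refine ⟨by omega, ?_⟩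
  intro γ hγ
  have h1 := key γ hγ
  have h2 : (Finsupp.weight (1 : σ → ℕ)) γ = γ.degree := by
    rw [Finsupp.degree_eq_weight_one]
    rfl
  rw [h2]
  omega

end Pool.Agent.HHC
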