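import Pool.Agent.HHC.Stmts

set_option autoImplicit false

namespace Pool.Agent.HHC

open MvPolynomial Pool.Agent.Lib22a066

universe u

theorem thd_proof (hTHA : Stmt_THA.{u}) (hTHB : Stmt_THB.{u}) : Stmt_THD.{u} := by
  intro σ _ _ k _ p hp _ _ s S c l m n D e lam hcard hn hm hlam G H g h hG hH
  have hp1 : 1 < p := hp.out.one_lt
  obtain ⟨hGv, hGh, hGd⟩ := hG
  obtain ⟨hHv, hHh, hHd⟩ := hH
  -- level
  set e' := h + 1 with he'
  set q' := p ^ e' with hq'
  have hq'h : h < q' := lt_of_lt_of_le (Nat.lt_succ_self h) (Nat.lt_pow_self hp1).le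
  have hpow : p ^ (e + e') = p ^ e * q' := pow_add _ _ _
  -- the products are in the range
  have hX : ∀ i j, i + j = q' → XN S c l m n D (p ^ (e + e')) (g * i + h * j) (G ^ i * H ^ j) := by
    intro i j hij
    refine ⟨?_, (hGh.pow i).mul (hHh.pow j), ?_⟩
    · intro v hv
      have h1 := Ideal.mul_mem_mul (Ideal.pow_mem_pow (hGv v hv) i)
        (Ideal.pow_mem_pow (hHv v hv) j)
      rw [← pow_mul, ← pow_mul, ← pow_add] at h1
      refine Ideal.pow_le_pow_right ?_ h1
      rw [hpow, ← hij]
      exact le_of_eq (by ring)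
    · rw [hpow, ← hij]
      have h1 : (g + 1) * i ≤ p ^ e * (D + 1) * i := Nat.mul_le_mul_right _ hGd
      have h2 : (h + 1) * j ≤ p ^ e * (D + 1) * j := Nat.mul_le_mul_right _ hHd
      have h3 : p ^ e * (i + j) * (D + 1) = p ^ e * (D + 1) * i + p ^ e * (D + 1) * j := by ring
      have h4 : 0 < i + j := by rw [hij]; exact pow_pos hp.out.pos _
      rw [h3]
      nlinarith
  -- degrees after multiplication
  have hdeg : ∀ i j, i + j = q' → g * i + h * j + h < p ^ (e + e') * (D + 1) := by
    intro i j hij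
    rw [hpow, ← hij]
    have h1 : (g + 1) * i ≤ p ^ e * (D + 1) * i := Nat.mul_le_mul_right _ hGd
    have h2 : (h + 1) * j ≤ p ^ e * (D + 1) * j := Nat.mul_le_mul_right _ hHd
    have h3 : p ^ e * (i + j) * (D + 1) = p ^ e * (D + 1) * i + p ^ e * (D + 1) * j := by ring
    rw [h3]
    have h4 : h < i + j := by rw [hij]; exact hq'h
    nlinarith
  have hstep : ∀ i j, i + 1 + j = q' →
      Th p (e + e') lam (G ^ (i + 1) * H ^ j) * H = G * Th p (e + e') lam (G ^ i * H ^ (j + 1)) := by
    intro i j hij
    have h1 := hTHA σ k p s S c l m n D (e + e') lam hcard hn hm hlam _ H _ h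
      (hX (i + 1) j hij) hHh (hdeg (i + 1) j hij)
    have hij2 : i + (j + 1) = q' := by omega
    have h2 := hTHA σ k p s S c l m n D (e + e') lam hcard hn hm hlam _ G _ g
      (hX i (j + 1) hij2) hGh (by
        have h3 := hdeg (i + 1) j hij
        have h4 : g * i + h * (j + 1) + g = g * (i + 1) + h * j + h := by ring
        omega)
    rw [mul_comm, ← h1, ← h2]
    congr 1
    ring
  have hchain : ∀ j, j ≤ q' →
      Th p (e + e') lam (G ^ q') * H ^ j = G ^ j * Th p (e + e') lam (G ^ (q' - j) * H ^ j) := by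
    intro j
    induction j with
    | zero =>
      intro _
      simp
    | succ j ih =>
      intro hj
      have h1 := ih (by omega)
      have h2 := hstep (q' - (j + 1)) j (by omega)
      have h3 : q' - (j + 1) + 1 = q' - j := by omega
      rw [h3] at h2
      rw [pow_succ, ← mul_assoc, h1, mul_assoc, h2, pow_succ]
      ring
  have h1 := hchain q' le_rfl
  rw [Nat.sub_self, pow_zero, one_mul, hTHB, hTHB, ← mul_pow, ← mul_pow] at h1
  have h2 : iterateFrobenius (MvPolynomial σ k) p e' (Th p e lam G * H) =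
      iterateFrobenius (MvPolynomial σ k) p e' (G * Th p e lam H) := by
    rw [iterateFrobenius_def, iterateFrobenius_def]
    exact h1
  exact iterateFrobenius_inj (MvPolynomial σ k) p e' h2

end Pool.Agent.HHC
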