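import Pool.Agent.HHC.Stmts

/-!
Squad HHC (MP_22a066_ag): the containment with degree threshold one higher.
-/

set_option autoImplicit false

namespace Pool.Agent.HHC

open MvPolynomial Pool.Agent.Lib22a066

universe u

theorem WEA_num {q t d a : ℕ} (ht : 1 ≤ t) (h2 : a * t < q + t) (h3 : (t - 1) * d < q) :
    a * d < q * (d / t + 1) := by
  have h4 : d < t * (d / t + 1) := Nat.lt_mul_div_succ d ht
  by_contra hcon
  push Not at hcon
  have h5 : q * (d / t + 1) * t ≤ a * d * t := Nat.mul_le_mul_right t hcon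
  have h6 : a * d * t ≤ (q + (t - 1)) * d := by
    have : a * t ≤ q + (t - 1) := by omega
    calc a * d * t = a * t * d := by ring
      _ ≤ _ := Nat.mul_le_mul_right d this
  have h7 : q * (d + 1) ≤ q * (t * (d / t + 1)) := Nat.mul_le_mul_left q h4
  have h8 : (q + (t - 1)) * d = q * d + (t - 1) * d := by ring
  have h9 : q * (d / t + 1) * t = q * (t * (d / t + 1)) := by ring
  have h10 : q * (d + 1) = q * d + q := by ring
  omega

theorem wea_proof (hSTP : Stmt_STP.{u}) : Stmt_WEA.{u} := by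
  intro σ _ _ k _ p _ _ _ s S c l m n t d F hcard hn hm ht hF hVan
  by_cases hF0 : F = 0
  · rw [hF0]
    exact Ideal.zero_mem _
  have hp : p.Prime := Fact.out
  obtain ⟨e, he⟩ : ∃ e : ℕ, (t - 1) * d < p ^ e :=
    ⟨(t - 1) * d, Nat.lt_pow_self hp.one_lt⟩
  have hq : 0 < p ^ e := pow_pos hp.pos e
  obtain ⟨a, ha1, ha2⟩ : ∃ a : ℕ, p ^ e ≤ a * t ∧ a * t < p ^ e + t := by
    refine ⟨(p ^ e + t - 1) / t, ?_, ?_⟩
    · have h1 := Nat.lt_mul_div_succ (p ^ e + t - 1) (show 0 < t from ht)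
      have h2 : t * ((p ^ e + t - 1) / t + 1) = (p ^ e + t - 1) / t * t + t := by ring
      omega
    · have h1 := Nat.div_mul_le_self (p ^ e + t - 1) t
      omega
  have hdeg := WEA_num ht ha2 he
  have hpow : ∀ i ∈ S, F ^ a ∈ pid (c i) (l i) ^ (p ^ e * (m i + n - 1)) := by
    intro i hi
    have h1 := Ideal.pow_mem_pow (hVan i hi) a
    rw [← pow_mul] at h1
    refine Ideal.pow_le_pow_right ?_ h1
    calc p ^ e * (m i + n - 1) ≤ a * t * (m i + n - 1) := Nat.mul_le_mul_right _ ha1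
      _ = t * (m i + n - 1) * a := by ring
  refine hSTP σ k p _ t d e a F hF0 hF ha1 ha2 he ?_
  intro β
  by_cases h0 : T p e β (F ^ a) = 0
  · rw [h0]
    exact Ideal.zero_mem _
  have hJ : T p e β (F ^ a) ∈ wsymb S c l m := by
    unfold wsymb
    rw [Ideal.mem_iInf]
    intro i
    rw [Ideal.mem_iInf]
    intro hi
    exact T_mem_pid p e (c i) (l i) n (m i) hcard (by omega) (hm i hi) (hpow i hi) β
  obtain ⟨γ, hγ⟩ := exists_coeff_ne_zero h0
  have h1 := T_isHomogeneous p e (hF.pow a) hγ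
  have h2 : (T p e β (F ^ a)).IsHomogeneous γ.degree := by
    intro γ' hγ'
    have h3 := T_isHomogeneous p e (hF.pow a) hγ'
    have h4 : p ^ e * γ'.degree = p ^ e * γ.degree := by omega
    have h5 := Nat.eq_of_mul_eq_mul_left hq h4
    rw [← h5, Finsupp.degree_eq_weight_one]
    rfl
  refine mem_low hJ ?_ h2
  have h3 : p ^ e * γ.degree < p ^ e * (d / t + 1) := by
    have : d * a = a * d := Nat.mul_comm d a
    omega
  exact Nat.lt_of_mul_lt_mul_left h3

end Pool.Agent.HHC
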