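import Pool.Agent.HHC.ORD
import Pool.Agent.HHC.HOM
import Pool.Agent.HHC.NPD
import Pool.Agent.HHC.BIN
import Pool.Agent.HHC.HAS
import Pool.Agent.HHC.STP
import Pool.Agent.HHC.THA
import Pool.Agent.HHC.THB
import Pool.Agent.HHC.THC
import Pool.Agent.HHC.THD
import Pool.Agent.HHC.LAM
import Pool.Agent.HHC.FIX
import Pool.Agent.HHC.ONE
import Pool.Agent.HHC.OPS
import Pool.Agent.HHC.ARI
import Pool.Agent.HHC.NUM
import Pool.Agent.HHC.IND
import Pool.Agent.HHC.WEA
import Pool.Agent.HHC.FIN

set_option autoImplicit false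

namespace Pool.Agent.HHC

universe u

theorem final : Stmt_FIN.{u} := by
  have hLAM : Stmt_LAM.{u} := lam_proof stp_proof
  have hTHD : Stmt_THD.{u} := thd_proof tha_proof thb_proof
  have hFIX : Stmt_FIX.{u} := fix_proof thb_proof thc_proof hTHD hLAM
  have hONE : Stmt_ONE.{u} := one_proof ord_proof hFIX
  have hOPS : Stmt_OPS.{u} := ops_proof hom_proof npd_proof bin_proof has_proof
  have hNUM : Stmt_NUM.{u} := num_proof ord_proof hFIX hOPS ari_proof
  have hIND : Stmt_IND.{u} := ind_proof ord_proof hom_proof hONE hNUM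
  exact fin_proof hIND (wea_proof stp_proof)

end Pool.Agent.HHC
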