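import Pool.Agent.HHC.Stmts

/-!
# ORD: additivity of the order at a point, and the order of a form is at most its degree
-/

set_option autoImplicit false

namespace Pool.Agent.HHC

open MvPolynomial Pool.Agent.Lib22a066

universe u

namespace ORD_

variable {σ : Type} [DecidableEq σ] {k : Type u} [Field k]

/-- the variables different from `x_l` are multiplied by a new variable -/
noncomputable def Ph (k : Type u) [Field k] (l : σ) :
    MvPolynomial σ k →ₐ[k] Polynomial (MvPolynomial σ k) :=
  aeval (fun j => if j = l then Polynomial.C (X l) else Polynomial.C (X j) * Polynomial.X)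

lemma Ph_monomial (l : σ) (α : σ →₀ ℕ) : ∀ a : k,
    Ph k l (monomial α a) = Polynomial.C (monomial α a) * Polynomial.X ^ (wt l α) := by
  induction α using Finsupp.induction_linear with
  | zero =>
    intro a
    have h1 : (monomial 0 a : MvPolynomial σ k) = C a := rfl
    have h2 : wt l (0 : σ →₀ ℕ) = 0 := by simp [wt]
    rw [h2, pow_zero, mul_one, h1]
    have h3 : Ph k l (C a) = algebraMap k (Polynomial (MvPolynomial σ k)) a :=
      (Ph k l).commutes a
    rw [h3]
    rfl
  | add α β hα hβ =>
    intro a
    have h1 : (monomial (α + β) a : MvPolynomial σ k) = monomial α 1 * monomial β a := by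
      rw [monomial_mul, one_mul]
    rw [h1, map_mul, hα, hβ, wt_add, pow_add, Polynomial.C_mul]
    ring
  | single j n =>
    intro a
    have h1 : (monomial (Finsupp.single j n) a : MvPolynomial σ k) = C a * X j ^ n := by
      rw [C_mul_X_pow_eq_monomial]
    have h3 : Ph k l (C a) = Polynomial.C (C a) := by
      have h4 : Ph k l (C a) = algebraMap k (Polynomial (MvPolynomial σ k)) a :=
        (Ph k l).commutes a
      rw [h4]
      rfl
    rw [h1, map_mul, map_pow, h3]
    by_cases hj : j = l
    · have h2 : wt l (Finsupp.single j n) = 0 := by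
        subst hj
        simp [wt]
      have h5 : Ph k l (X j) = Polynomial.C (X j) := by
        simp [Ph, hj]
      rw [h2, h5, pow_zero, mul_one, Polynomial.C_mul, Polynomial.C_pow]
    · have h2 : wt l (Finsupp.single j n) = n := by
        unfold wt
        rw [Finsupp.erase_single_ne (Ne.symm hj)]
        simp
      have h5 : Ph k l (X j) = Polynomial.C (X j) * Polynomial.X := by
        simp [Ph, hj]
      rw [h2, h5, mul_pow, Polynomial.C_mul, Polynomial.C_pow]
      ring

lemma coeff_Ph (l : σ) (f : MvPolynomial σ k) (v : ℕ) (β : σ →₀ ℕ) :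
    coeff β ((Ph k l f).coeff v) = if wt l β = v then coeff β f else 0 := by
  classical
  induction f using MvPolynomial.induction_on' with
  | monomial α a =>
    rw [Ph_monomial, Polynomial.coeff_C_mul, Polynomial.coeff_X_pow]
    by_cases h1 : v = wt l α
    · rw [if_pos h1, mul_one]
      by_cases h2 : α = β
      · rw [if_pos (by rw [h1, h2])]
      · rw [coeff_monomial, if_neg h2]
        simp
    · rw [if_neg h1, mul_zero, coeff_zero]
      by_cases h2 : wt l β = v
      · rw [if_pos h2, coeff_monomial, if_neg]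
        rintro rfl
        exact h1 h2.symm
      · rw [if_neg h2]
  | add p q hp hq =>
    rw [map_add, Polynomial.coeff_add, coeff_add, hp, hq, coeff_add]
    split_ifs
    · rfl
    · rw [add_zero]

lemma mem_wid_iff (l : σ) (M : ℕ) (f : MvPolynomial σ k) :
    f ∈ wid k l M ↔ Polynomial.X ^ M ∣ Ph k l f := by
  rw [Polynomial.X_pow_dvd_iff, mem_wid]
  constructor
  · intro h v hv
    ext β
    rw [coeff_Ph, coeff_zero]
    by_cases h1 : wt l β = v
    · rw [if_pos h1]
      by_contra h2
      have := h β h2
      omega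
    · rw [if_neg h1]
  · intro h β hβ
    by_contra h1
    have h2 := congrArg (coeff β) (h (wt l β) (by omega))
    rw [coeff_Ph, if_pos rfl, coeff_zero] at h2
    exact hβ h2

lemma key (l : σ) (f g : MvPolynomial σ k) (e W : ℕ) (hf : f ∉ wid k l (e + 1))
    (hfg : f * g ∈ wid k l W) : g ∈ wid k l (W - e) := by
  rw [mem_wid_iff] at hf hfg ⊢
  rw [map_mul] at hfg
  obtain ⟨P, hP⟩ : ∃ P, P = Ph k l f := ⟨_, rfl⟩
  obtain ⟨G, hG⟩ : ∃ G, G = Ph k l g := ⟨_, rfl⟩
  rw [← hP] at hf hfg
  rw [← hG] at hfg ⊢
  have hP0 : P ≠ 0 := by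
    rintro rfl
    exact hf (dvd_zero _)
  have h1 : Polynomial.X ^ P.natTrailingDegree ∣ P := by
    rw [Polynomial.X_pow_dvd_iff]
    intro d hd
    exact Polynomial.coeff_eq_zero_of_lt_natTrailingDegree hd
  obtain ⟨f1, hf1⟩ := h1
  have h2 : ¬ Polynomial.X ∣ f1 := by
    rintro ⟨f2, hf2⟩
    have h3 : Polynomial.X ^ (P.natTrailingDegree + 1) ∣ P := by
      refine ⟨f2, ?_⟩
      rw [pow_succ, mul_assoc, ← hf2, ← hf1]
    rw [Polynomial.X_pow_dvd_iff] at h3
    have h4 := h3 P.natTrailingDegree (Nat.lt_succ_self _)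
    exact (Polynomial.mem_support_iff.1
      (Polynomial.natTrailingDegree_mem_support_of_nonzero hP0)) h4
  obtain ⟨a, ha⟩ : ∃ a, a = P.natTrailingDegree := ⟨_, rfl⟩
  rw [← ha] at hf1
  have h5 : a ≤ e := by
    by_contra h6
    apply hf
    refine dvd_trans (pow_dvd_pow _ (by omega)) ⟨f1, hf1⟩
  by_cases h7 : W ≤ a
  · have h8 : W - e = 0 := by omega
    rw [h8, pow_zero]
    exact one_dvd _
  · have h9 : Polynomial.X ^ (W - a) ∣ f1 * G := by
      have h10 : (Polynomial.X ^ a * Polynomial.X ^ (W - a) : Polynomial (MvPolynomial σ k)) ∣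
          Polynomial.X ^ a * (f1 * G) := by
        rw [← pow_add, ← mul_assoc, ← hf1]
        have h11 : a + (W - a) = W := by omega
        rw [h11]
        exact hfg
      exact (mul_dvd_mul_iff_left (pow_ne_zero _ Polynomial.X_ne_zero)).1 h10
    have h12 : Polynomial.X ^ (W - a) ∣ G :=
      Polynomial.prime_X.pow_dvd_of_dvd_mul_left _ h2 h9
    exact dvd_trans (pow_dvd_pow _ (by omega)) h12

end ORD_

theorem ord_proof : Stmt_ORD.{u} := by
  intro σ _ _ k _ c l
  constructor
  · intro f g e W hf hfg
    rw [mem_pid_pow_iff] at hf hfg ⊢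
    rw [map_mul] at hfg
    exact ORD_.key l _ _ e W hf hfg
  · intro f d M hf hd hM
    rw [mem_pid_pow_iff, mem_wid] at hM
    have h1 : th c l f ≠ 0 := by
      intro h
      apply hf
      apply th_injective c l
      rw [h, map_zero]
    obtain ⟨α, hα⟩ := MvPolynomial.exists_coeff_ne_zero h1
    have h2 := hM α hα
    have h3 := wt_le_degree l α
    have h4 : α.degree = d := by
      have h5 := th_isHomogeneous c l hd hα
      rw [← h5]
      have h6 := DFunLike.congr_fun (Finsupp.degree_eq_weight_one (σ := σ) (R := ℕ)) α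
      exact h6
    omega

end Pool.Agent.HHC
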