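import Pool.Agent.HHC.Defs

/-!
# Squad HHC (MP_22a066_ag): statements
-/

set_option autoImplicit false

namespace Pool.Agent.HHC

open MvPolynomial Pool.Agent.Lib22a066

universe u

/-- ORD: additivity of the order at a point, and the order of a form is at most its degree. -/
def Stmt_ORD : Prop :=
  ∀ (σ : Type) [Fintype σ] [DecidableEq σ] (k : Type u) [Field k] (c : σ → k) (l : σ),
    (∀ (f g : MvPolynomial σ k) (e W : ℕ), f ∉ pid c l ^ (e + 1) → f * g ∈ pid c l ^ W →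
      g ∈ pid c l ^ (W - e)) ∧
    (∀ (f : MvPolynomial σ k) (d M : ℕ), f ≠ 0 → f.IsHomogeneous d → f ∈ pid c l ^ M → M ≤ d)

/-- HOM: factors of a form are forms. -/
def Stmt_HOM : Prop :=
  ∀ (σ : Type) (k : Type u) [Field k] (f g : MvPolynomial σ k) (d : ℕ),
    f * g ≠ 0 → (f * g).IsHomogeneous d →
      ∃ a b : ℕ, a + b = d ∧ f.IsHomogeneous a ∧ g.IsHomogeneous b

/-- NPD: over a perfect field an irreducible polynomial does not divide all its derivatives. -/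
def Stmt_NPD : Prop :=
  ∀ (σ : Type) [Fintype σ] [DecidableEq σ] (k : Type u) [Field k] (p : ℕ) [Fact p.Prime]
    [CharP k p] [PerfectRing k p] (f : MvPolynomial σ k), Irreducible f →
      ∃ i, ¬ f ∣ pderiv i f

/-- BIN: `C(p^N - 1, s)` is prime to `p`. -/
def Stmt_BIN : Prop :=
  ∀ (p : ℕ), p.Prime → ∀ N s : ℕ, s ≤ p ^ N - 1 → ¬ p ∣ (p ^ N - 1).choose s

/-- HAS: Hasse derivatives of order `s` in direction `x_i`. -/
def Stmt_HAS : Prop :=
  ∀ (σ : Type) [Fintype σ] [DecidableEq σ] (k : Type u) [Field k] (i : σ) (s : ℕ),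
    ∃ D : MvPolynomial σ k →ₗ[k] MvPolynomial σ k,
      (∀ (c : σ → k) (l : σ) (W : ℕ), ∀ G ∈ pid c l ^ W, D G ∈ pid c l ^ (W - s)) ∧
      (∀ (G : MvPolynomial σ k) (e : ℕ), G.IsHomogeneous e → (D G).IsHomogeneous (e - s)) ∧
      (∀ (f U : MvPolynomial σ k) (M : ℕ), Prime f → ¬ f ∣ U → ¬ f ∣ pderiv i f → s ≤ M →
        ((M.choose s : ℕ) : k) ≠ 0 →
          f ^ (M - s) ∣ D (f ^ M * U) ∧ ¬ f ^ (M - s + 1) ∣ D (f ^ M * U))

/-- THA: `Θ` is linear over the polynomial ring, in the admissible range of degrees. -/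
def Stmt_THA : Prop :=
  ∀ (σ : Type) [Fintype σ] [DecidableEq σ] (k : Type u) [Field k] (p : ℕ) [Fact p.Prime]
    [CharP k p] [PerfectRing k p] (s : Type) (S : Finset s) (c : s → σ → k) (l : s → σ)
    (m : s → ℕ) (n D e : ℕ) (lam : MvPolynomial σ k →ₗ[k] k),
    Fintype.card σ = n + 1 → 2 ≤ n → (∀ i ∈ S, 1 ≤ m i) →
    (∀ f ∈ low (wsymb S c l m) D, lam f = 0) →
    ∀ (G H : MvPolynomial σ k) (g h : ℕ), XN S c l m n D (p ^ e) g G → H.IsHomogeneous h →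
      g + h < p ^ e * (D + 1) → Th p e lam (H * G) = H * Th p e lam G

/-- THB: `Θ` and Frobenius. -/
def Stmt_THB : Prop :=
  ∀ (σ : Type) [Fintype σ] [DecidableEq σ] (k : Type u) [Field k] (p : ℕ) [Fact p.Prime]
    [CharP k p] [PerfectRing k p] (e e' : ℕ) (lam : MvPolynomial σ k →ₗ[k] k)
    (G : MvPolynomial σ k), Th p (e + e') lam (G ^ (p ^ e')) = (Th p e lam G) ^ (p ^ e')

/-- THC: degree of `Θ G`. -/
def Stmt_THC : Prop :=
  ∀ (σ : Type) [Fintype σ] [DecidableEq σ] (k : Type u) [Field k] (p : ℕ) [Fact p.Prime]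
    [CharP k p] [PerfectRing k p] (s : Type) (S : Finset s) (c : s → σ → k) (l : s → σ)
    (m : s → ℕ) (n D e : ℕ) (lam : MvPolynomial σ k →ₗ[k] k),
    Fintype.card σ = n + 1 → 2 ≤ n → (∀ i ∈ S, 1 ≤ m i) →
    (∀ f ∈ low (wsymb S c l m) D, lam f = 0) →
    ∀ (G : MvPolynomial σ k) (g : ℕ), XN S c l m n D (p ^ e) g G → Th p e lam G ≠ 0 →
      p ^ e * D ≤ g ∧ (Th p e lam G).IsHomogeneous (g - p ^ e * D)

/-- THD: `Θ G / G` does not depend on `G`. -/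
def Stmt_THD : Prop :=
  ∀ (σ : Type) [Fintype σ] [DecidableEq σ] (k : Type u) [Field k] (p : ℕ) [Fact p.Prime]
    [CharP k p] [PerfectRing k p] (s : Type) (S : Finset s) (c : s → σ → k) (l : s → σ)
    (m : s → ℕ) (n D e : ℕ) (lam : MvPolynomial σ k →ₗ[k] k),
    Fintype.card σ = n + 1 → 2 ≤ n → (∀ i ∈ S, 1 ≤ m i) →
    (∀ f ∈ low (wsymb S c l m) D, lam f = 0) →
    ∀ (G H : MvPolynomial σ k) (g h : ℕ), XN S c l m n D (p ^ e) g G →
      XN S c l m n D (p ^ e) h H → Th p e lam G * H = G * Th p e lam H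

/-- STP: from Frobenius coordinates of `F^a`, `a = ⌈q/t⌉`, in `L` to `F ∈ L^t`. -/
def Stmt_STP : Prop :=
  ∀ (σ : Type) [Fintype σ] [DecidableEq σ] (k : Type u) [Field k] (p : ℕ) [Fact p.Prime]
    [CharP k p] [PerfectRing k p] (L : Ideal (MvPolynomial σ k)) (t d e a : ℕ)
    (F : MvPolynomial σ k),
    F ≠ 0 → F.IsHomogeneous d → p ^ e ≤ a * t → a * t < p ^ e + t → (t - 1) * d < p ^ e →
    (∀ β, T p e β (F ^ a) ∈ L) → F ∈ L ^ t

/-- LAM: if `F` is not in `(low J D)^t`, `D = d / t`, there is a functional and a level with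
`Θ (F^⌈q/t⌉) ≠ 0` and `F^⌈q/t⌉` in the admissible range. -/
def Stmt_LAM : Prop :=
  ∀ (σ : Type) [Fintype σ] [DecidableEq σ] (k : Type u) [Field k] (p : ℕ) [Fact p.Prime]
    [CharP k p] [PerfectRing k p] (s : Type) (S : Finset s) (c : s → σ → k) (l : s → σ)
    (m : s → ℕ) (n t d : ℕ) (F : MvPolynomial σ k),
    Fintype.card σ = n + 1 → 2 ≤ n → (∀ i ∈ S, 1 ≤ m i) → 1 ≤ t → F ≠ 0 →
    F.IsHomogeneous d → Van S c l m n t F → F ∉ low (wsymb S c l m) (d / t) ^ t →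
    ∃ (e a : ℕ) (lam : MvPolynomial σ k →ₗ[k] k),
      (∀ f ∈ low (wsymb S c l m) (d / t), lam f = 0) ∧
      XN S c l m n (d / t) (p ^ e) (a * d) (F ^ a) ∧ Th p e lam (F ^ a) ≠ 0

/-- FIX: if `F` is not in `(low J D)^t`, then a fixed form `B` of degree `≥ q D` divides all forms
of the admissible range, in the sense `B^N ∣ G^q`. -/
def Stmt_FIX : Prop :=
  ∀ (σ : Type) [Fintype σ] [DecidableEq σ] (k : Type u) [Field k] (p : ℕ) [Fact p.Prime]
    [CharP k p] [PerfectRing k p] (s : Type) (S : Finset s) (c : s → σ → k) (l : s → σ)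
    (m : s → ℕ) (n t d : ℕ) (F : MvPolynomial σ k),
    Fintype.card σ = n + 1 → 2 ≤ n → (∀ i ∈ S, 1 ≤ m i) → 1 ≤ t → F ≠ 0 →
    F.IsHomogeneous d → Van S c l m n t F → F ∉ low (wsymb S c l m) (d / t) ^ t →
    ∃ (q : ℕ) (B : MvPolynomial σ k), 1 ≤ q ∧ B ≠ 0 ∧ q * (d / t) ≤ B.totalDegree ∧
      ∀ (N g : ℕ) (G : MvPolynomial σ k), 1 ≤ N → G ≠ 0 → XN S c l m n (d / t) N g G →
        B ^ N ∣ G ^ q

/-- ONE: the theorem for `t = 1`. -/
def Stmt_ONE : Prop :=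
  ∀ (σ : Type) [Fintype σ] [DecidableEq σ] (k : Type u) [Field k] (p : ℕ) [Fact p.Prime]
    [CharP k p] [PerfectRing k p] (s : Type) (S : Finset s) (c : s → σ → k) (l : s → σ)
    (m : s → ℕ) (n d : ℕ) (F : MvPolynomial σ k),
    Fintype.card σ = n + 1 → 2 ≤ n → S.Nonempty → (∀ i ∈ S, 1 ≤ m i) →
    F.IsHomogeneous d → Van S c l m n 1 F → F ∈ low (wsymb S c l m) d

/-- OPS: the operator inequality. -/
def Stmt_OPS : Prop :=
  ∀ (σ : Type) [Fintype σ] [DecidableEq σ] (k : Type u) [Field k] (p : ℕ) [Fact p.Prime]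
    [CharP k p] [PerfectRing k p] (s : Type) (S : Finset s) (c : s → σ → k) (l : s → σ)
    (m : s → ℕ) (n t d q : ℕ) (F B f : MvPolynomial σ k) (φ b u v : ℕ),
    Fintype.card σ = n + 1 → 2 ≤ n → (∀ i ∈ S, 1 ≤ m i) → 1 ≤ t → 1 ≤ q → F ≠ 0 →
    F.IsHomogeneous d → Van S c l m n t F → n ≤ d / t →
    (∀ (N g : ℕ) (G : MvPolynomial σ k), 1 ≤ N → G ≠ 0 → XN S c l m n (d / t) N g G →
        B ^ N ∣ G ^ q) →
    Prime f → f ^ φ ∣ F → ¬ f ^ (φ + 1) ∣ F → 1 ≤ φ → φ < t → f ^ b ∣ B →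
    1 ≤ v → u ≤ φ * v → u * (d / t + 1 - n) < (t - d % t) * n * v →
    (t * n * v - u) * b ≤ q * n * (φ * v - u)

/-- ARI: the choice of `u / v`. -/
def Stmt_ARI : Prop :=
  ∀ (n t r D : ℕ), 2 ≤ n → 2 ≤ t → r < t → n ≤ D → t ≤ n * (t - r) + 1 →
    ∃ u v : ℕ, 1 ≤ v ∧ u ≤ (t - 1) * v ∧ u * (D + 1 - n) < (t - r) * n * v ∧
      n * (t * D + r) * ((t - 1) * v - u) < (t - 1) * (t * n * v - u) * D

/-- NUM: no failure if all prime factors of `F` have multiplicity `< t`. -/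
def Stmt_NUM : Prop :=
  ∀ (σ : Type) [Fintype σ] [DecidableEq σ] (k : Type u) [Field k] (p : ℕ) [Fact p.Prime]
    [CharP k p] [PerfectRing k p] (s : Type) (S : Finset s) (c : s → σ → k) (l : s → σ)
    (m : s → ℕ) (n t d : ℕ) (F : MvPolynomial σ k),
    Fintype.card σ = n + 1 → 2 ≤ n → S.Nonempty → (∀ i ∈ S, 1 ≤ m i) → 2 ≤ t → F ≠ 0 →
    F.IsHomogeneous d → Van S c l m n t F → t ≤ n * (t - d % t) + 1 →
    (∀ f : MvPolynomial σ k, Prime f → ¬ f ^ t ∣ F) →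
    F ∈ low (wsymb S c l m) (d / t) ^ t

/-- IND: the main theorem over a perfect field. -/
def Stmt_IND : Prop :=
  ∀ (σ : Type) [Fintype σ] [DecidableEq σ] (k : Type u) [Field k] (p : ℕ) [Fact p.Prime]
    [CharP k p] [PerfectRing k p] (s : Type) (S : Finset s) (c : s → σ → k) (l : s → σ)
    (m : s → ℕ) (n t d : ℕ) (F : MvPolynomial σ k),
    Fintype.card σ = n + 1 → 2 ≤ n → S.Nonempty → (∀ i ∈ S, 1 ≤ m i) → 1 ≤ t →
    F.IsHomogeneous d → Van S c l m n t F → t ≤ n * (t - d % t) + 1 →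
    F ∈ low (wsymb S c l m) (d / t) ^ t

/-- WEA: the containment with degree threshold one higher (Hochster-Huneke), perfect field. -/
def Stmt_WEA : Prop :=
  ∀ (σ : Type) [Fintype σ] [DecidableEq σ] (k : Type u) [Field k] (p : ℕ) [Fact p.Prime]
    [CharP k p] [PerfectRing k p] (s : Type) (S : Finset s) (c : s → σ → k) (l : s → σ)
    (m : s → ℕ) (n t d : ℕ) (F : MvPolynomial σ k),
    Fintype.card σ = n + 1 → 2 ≤ n → (∀ i ∈ S, 1 ≤ m i) → 1 ≤ t →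
    F.IsHomogeneous d → Van S c l m n t F → F ∈ low (wsymb S c l m) (d / t + 1) ^ t

/-- FIN: the final theorem, in the notation of the library. -/
def Stmt_FIN : Prop :=
  ∀ (k : Type u) [Field k] (n : ℕ), 2 ≤ n → ∀ (s : ℕ), 0 < s →
    ∀ (c : Fin s → Fin (n + 1) → k) (l : Fin s → Fin (n + 1)) (m t : ℕ), 1 ≤ m → 1 ≤ t →
      symb c l (t * (m + n - 1)) ≤
        idealOfVars (Fin (n + 1)) k ^ (t - (t - 2) / n) * symb c l m ^ t

end Pool.Agent.HHC
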